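import Pool.Agent.T9h37.BI.Field
import Pool.Agent.T9h37.CT.FdPrime

/-!
# Relations on one simple factor, and splitting of relations in blocks
-/

set_option autoImplicit false
set_option linter.unusedSectionVars false
set_option linter.unusedVariables false

namespace Pool.Agent.T9h37.BI

open NumberField Pool.Agent.H204R3.CM Pool.Agent.W547.KB Pool.Agent.W547.LD Pool.Agent.W547.HR
  Pool.Agent.W495.TA Module Pool.Agent.TH117.PO Pool.Agent.W976.TA Pool.Agent.W417.TA
  Pool.Agent.TH117.BL Pool.Agent.W495.TC Pool.Agent.W495.TB Pool.Agent.TH117.F5 Pool.Agent.N202.QR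
open scoped TensorProduct

noncomputable section

variable {p : ℕ} [Fact p.Prime] {ν : PadicAlgCl p ≃+* ℂ}

/-- The group generated by the elementary relations. -/
abbrev Elem (Z : RedAV p ν) : AddSubgroup (Emb Z → ℤ) := AddSubgroup.closure
  {d : Emb Z → ℤ | ∃ n : Emb Z → ℕ, IsRel Z n ∧ IsElementary Z n ∧ ∀ w, d w = n w}

theorem pair_mem {Z : RedAV p ν} (n : Emb Z → ℕ) (h1 : IsRel Z n) (h2 : ∑ w, n w ≤ 2) :
    (fun w => (n w : ℤ)) ∈ Elem Z :=
  AddSubgroup.subset_closure ⟨n, h1, Or.inl h2, fun w => rfl⟩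

/-- Symmetric exponents are sums of elementary relations. -/
theorem sym_elem {Z : RedAV p ν} (e : Emb Z → ℕ) (h0 : ∀ w, oddE e w = 0) :
    (fun w => (e w : ℤ)) ∈ Elem Z := by
  refine sym_mem _ (fun n h1 h2 => ?_) e fun w => ?_
  · exact ⟨n, h1, h2, fun w => rfl⟩
  · have h1 := h0 w
    unfold oddE at h1
    omega

section

variable {L : Type} [Field L] [NumberField L] [IsCMField L] [IsGalois ℚ L] {j : L →+* ℂ}
  {Z : RedAV p ν}

/-- Relations on one factor. -/
theorem isRel_on (hZ : Big Z.X j) (i : Z.X.I) [Fintype ((Z.X.factor i).E →+* L)]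
    (e : Emb Z → ℕ) (hs : ∀ w, e w ≠ 0 → w.1 = i) :
    IsRel Z e ↔ ∀ σ, ∑ φ : (Z.X.factor i).E →+* L,
      (e (toEmb j Z ⟨i, φ⟩) : ℤ) * nn p ν j (Z.X.factor i) φ σ = 0 := by
  classical
  have hfin := Pool.Agent.W495.TB.finite_wt j hZ
  let _ : Fintype (Wt Z.X L) := Fintype.ofFinite _
  rw [isRel_iff hZ]
  refine forall_congr' fun σ => ?_
  have h1 : ∑ φ : (Z.X.factor i).E →+* L,
      (e (toEmb j Z ⟨i, φ⟩) : ℤ) * nn p ν j (Z.X.factor i) φ σ =
      ∑ w : Wt Z.X L, (e (toEmb j Z w) : ℤ) * tw p ν j Z.X w σ := by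
    refine Fintype.sum_of_injective (fun φ : (Z.X.factor i).E →+* L => (⟨i, φ⟩ : Wt Z.X L))
      (fun φ φ' h => eq_of_heq (Sigma.mk.inj_iff.1 h).2) _ _ (fun w hw => ?_) fun φ => rfl
    have h2 : e (toEmb j Z w) = 0 := by
      by_contra h3
      apply hw
      have h4 : w.1 = i := hs _ h3
      obtain ⟨k, φ⟩ := w
      obtain rfl : k = i := h4
      exact ⟨φ, rfl⟩
    rw [h2]
    simp
  rw [h1]

theorem self_pos (A : CMPair) (φ : A.E →+* L) (h : bil p ν j A A φ φ = 0) :
    ∀ σ, nn p ν j A φ σ = 0 := by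
  unfold bil at h
  have h1 := (Finset.sum_eq_zero_iff_of_nonneg fun σ _ => mul_self_nonneg _).1 h
  exact fun σ => mul_self_eq_zero.1 (h1 σ (Finset.mem_univ σ))

/-- Relations on a factor with a full CM field. -/
theorem full_on (hZ : Big Z.X j) (i : Z.X.I) (hF : IsFull (Z.X.factor i).E) (e : Emb Z → ℕ)
    (he : IsRel Z e) (hs : ∀ w, e w ≠ 0 → w.1 = i) : (fun w => (e w : ℤ)) ∈ Elem Z := by
  classical
  let A := Z.X.factor i
  have hfin' := finite_emb j A
  let _ : Fintype (A.E →+* L) := Fintype.ofFinite _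
  have hset := setting j A (L := L)
  have hrel := (isRel_on hZ i e hs).1 he
  let E : (A.E →+* L) → Emb Z := fun φ => toEmb j Z ⟨i, φ⟩
  have hEc : ∀ φ, conjE (E φ) = E (cc L • φ) := fun φ =>
    (toEmb_cw (j := j) (⟨i, φ⟩ : Wt Z.X L)).symm
  have hE : ∀ w : Emb Z, w.1 = i → ∃ φ, E φ = w := by
    rintro ⟨k, ψ⟩ h
    obtain rfl : k = i := h
    obtain ⟨φ, rfl⟩ := hZ k ψ
    exact ⟨φ, rfl⟩
  have hbil : ∀ φ ψ : A.E →+* L, ψ ≠ φ → ψ ≠ cc L • φ → bil p ν j A A φ ψ = 0 := by
    intro φ ψ h1 h2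
    obtain ⟨τ, hτ⟩ := hF (j.comp φ) (j.comp ψ) (fun h => h1 (comp_inj h)) (fun h => h2 (comp_inj
      (h.trans (comp_smul_cc j A φ).symm)))
    exact bil_of τ φ ψ hτ
  by_cases h0 : ∃ φ0 : A.E →+* L, bil p ν j A A φ0 φ0 ≠ 0
  · -- not supersingular
    obtain ⟨φ0, h0⟩ := h0
    have hself : ∀ φ : A.E →+* L, bil p ν j A A φ φ = bil p ν j A A φ0 φ0 := by
      intro φ
      obtain ⟨g, rfl⟩ := hset.trans φ0 φ
      exact bil_smul g φ0 φ0
    refine sym_elem e fun w => ?_
    by_cases hw : w.1 = i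
    · obtain ⟨φ, rfl⟩ := hE w hw
      have h1 : ∑ ψ : A.E →+* L, (e (E ψ) : ℤ) * bil p ν j A A φ ψ = 0 := by
        unfold bil
        simp only [Finset.mul_sum]
        rw [Finset.sum_comm]
        refine Finset.sum_eq_zero fun h _ => ?_
        have h2 := hrel h
        calc ∑ ψ : A.E →+* L, (e (E ψ) : ℤ) * (nn p ν j A φ h * nn p ν j A ψ h)
            = nn p ν j A φ h * ∑ ψ : A.E →+* L, (e (E ψ) : ℤ) * nn p ν j A ψ h := by
              rw [Finset.mul_sum]
              exact Finset.sum_congr rfl fun ψ _ => by ring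
          _ = 0 := by
              rw [h2, mul_zero]
      have h2 : ∑ ψ : A.E →+* L, (e (E ψ) : ℤ) * bil p ν j A A φ ψ =
          ∑ ψ ∈ {φ, cc L • φ}, (e (E ψ) : ℤ) * bil p ν j A A φ ψ := by
        symm
        refine Finset.sum_subset (Finset.subset_univ _) fun ψ _ hψ => ?_
        rw [Finset.mem_insert, Finset.mem_singleton, not_or] at hψ
        rw [hbil φ ψ hψ.1 hψ.2, mul_zero]
      rw [h2, Finset.sum_pair (hset.ne φ).symm, bil_cc', hself] at h1
      unfold oddE
      rw [hEc]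
      have h3 : ((e (E φ) : ℤ) - (e (E (cc L • φ)) : ℤ)) * bil p ν j A A φ0 φ0 = 0 := by
        linarith
      exact (mul_eq_zero.1 h3).resolve_right h0
    · have h1 : e w = 0 := by
        by_contra h
        exact hw (hs w h)
      have h2 : e (conjE w) = 0 := by
        by_contra h
        exact hw (hs (conjE w) h)
      unfold oddE
      rw [h1, h2]
      rfl
  · -- supersingular
    push Not at h0
    have hT : ∀ (φ : A.E →+* L) σ, nn p ν j A φ σ = 0 := fun φ => self_pos A φ (h0 φ)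
    let n : Emb Z → Emb Z → ℕ := fun u w => if w = u then 1 else 0
    have h1 : (fun w => (e w : ℤ)) = ∑ u : Emb Z, e u • fun w => ((n u w : ℕ) : ℤ) := by
      funext w
      rw [Finset.sum_apply, Finset.sum_eq_single w]
      · simp [n]
      · intro u _ hne
        have h2 : w ≠ u := fun h => hne h.symm
        simp [n, h2]
      · intro h
        exact absurd (Finset.mem_univ _) h
    rw [h1]
    refine AddSubgroup.sum_mem _ fun u _ => ?_
    by_cases hu : e u = 0
    · rw [hu, zero_smul]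
      exact AddSubgroup.zero_mem _
    · refine AddSubgroup.nsmul_mem _ (pair_mem (n u) ?_ ?_) _
      · rw [isRel_on hZ i (n u) (fun w hw => by
          by_cases h : w = u
          · rw [h]
            exact hs u hu
          · exact absurd (if_neg h) hw)]
        intro σ
        refine Finset.sum_eq_zero fun φ _ => ?_
        rw [hT, mul_zero]
      · change ∑ w, (if w = u then 1 else 0) ≤ 2
        rw [Finset.sum_ite_eq' Finset.univ u fun _ => 1, if_pos (Finset.mem_univ _)]
        norm_num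

end

end

end Pool.Agent.T9h37.BI
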