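import Pool.Agent.N202.QR.PrimeRel

/-!
# Invariant odd functions on the products of two sets with an operation of a group
-/

set_option autoImplicit false
set_option linter.unusedSectionVars false
set_option linter.unusedVariables false

namespace Pool.Agent.T9h37.BI

open Pool.Agent.W495.TA Pool.Agent.N202.QR

noncomputable section

variable {G X W : Type} [Group G] [Finite G] [Fintype X] [MulAction G X] [MulAction G W] {c : G}

/-- The functions `B` on `X × W`, invariant under `G` and odd in `x`, where `X` has `2 ℓ` elements, `ℓ` is a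
prime number, and the normal subgroup of the elements which fix all points of `W` does not fix all pairs
`{x, c x}`: they are products of a sign function and of a function on `W`. -/
theorem split_of_prime (hset : Setting G X c) {ℓ : ℕ} (hℓ : ℓ.Prime)
    (hcard : Fintype.card X = 2 * ℓ) (B : X → W → ℤ)
    (hB : ∀ (σ : G) x w, B (σ • x) (σ • w) = B x w) (hBc : ∀ x w, B (c • x) w = -B x w)
    (n : G) (hn : ∀ w : W, n • w = w) (x1 : X) (h1 : n • x1 ≠ x1)
    (x0 : X) (w0 : W) (h0 : B x0 w0 ≠ 0) :
    ∃ (a : X → ℤ) (b : W → ℤ), (∀ x, a x = 1 ∨ a x = -1) ∧ (∀ x w, B x w = a x * b w) ∧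
      (∀ x, a (c • x) = -a x) := by
  classical
  let N : Subgroup G :=
    { carrier := {g | ∀ w : W, g • w = w}
      one_mem' := fun w => one_smul _ _
      mul_mem' := by
        intro g h hg hh w
        have hg' : ∀ w : W, g • w = w := hg
        have hh' : ∀ w : W, h • w = w := hh
        rw [mul_smul, hh', hg']
      inv_mem' := by
        intro g hg w
        have hg' : ∀ w : W, g • w = w := hg
        rw [inv_smul_eq_iff, hg'] }
  have hNmem : ∀ g, g ∈ N ↔ ∀ w : W, g • w = w := fun g => Iff.rfl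
  have hNn : N.Normal := by
    constructor
    intro g hg σ w
    have hg' : ∀ w : W, g • w = w := hg
    rw [mul_smul, mul_smul, hg', ← mul_smul, mul_inv_cancel, one_smul]
  have hcc : ∀ x : X, c • c • x = x := fun x => by rw [← mul_smul, hset.sq, one_smul]
  have hcn : ∀ (g : G) (x : X), c • g • x = g • c • x := fun g x => by
    rw [← mul_smul, hset.comm, mul_smul]
  -- the normal subgroup generated by `N` and `c`
  let M : Subgroup G :=
    { carrier := {g | g ∈ N ∨ c * g ∈ N}
      one_mem' := Or.inl N.one_mem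
      mul_mem' := by
        rintro g h (hg | hg) (hh | hh)
        · exact Or.inl (N.mul_mem hg hh)
        · right
          have e1 : c * (g * h) = g * (c * h) := by rw [← mul_assoc, hset.comm, mul_assoc]
          rw [e1]
          exact N.mul_mem hg hh
        · right
          rw [← mul_assoc]
          exact N.mul_mem hg hh
        · left
          have e1 : g * h = (c * g) * (c * h) := by
            rw [hset.comm g, mul_assoc, ← mul_assoc c c h, hset.sq, one_mul]
          rw [e1]
          exact N.mul_mem hg hh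
      inv_mem' := by
        rintro g (hg | hg)
        · exact Or.inl (N.inv_mem hg)
        · right
          have e1 : c * g⁻¹ = (c * g)⁻¹ := by
            have e2 : c⁻¹ = c := inv_eq_of_mul_eq_one_left hset.sq
            rw [hset.comm g, mul_inv_rev, e2]
          rw [e1]
          exact N.inv_mem hg }
  have hMn : M.Normal := by
    constructor
    rintro g (hg | hg) σ
    · exact Or.inl (hNn.conj_mem g hg σ)
    · right
      have e1 : c * (σ * g * σ⁻¹) = σ * (c * g) * σ⁻¹ := by
        rw [← mul_assoc, ← mul_assoc, hset.comm σ, mul_assoc σ c g]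
      rw [e1]
      exact hNn.conj_mem _ hg σ
  let O : Set X := MulAction.orbit N x0
  let O' : Set X := MulAction.orbit M x0
  have hpre : MulAction.IsPretransitive G X := ⟨hset.trans⟩
  have hOd : O.ncard ∣ Nat.card X := (MulAction.IsBlock.orbit_of_normal x0).ncard_dvd_card
    ⟨x0, MulAction.mem_orbit_self x0⟩
  have hOd' : O'.ncard ∣ Nat.card X := (MulAction.IsBlock.orbit_of_normal x0).ncard_dvd_card
    ⟨x0, MulAction.mem_orbit_self x0⟩
  have hOmem : ∀ x, x ∈ O ↔ ∃ g ∈ N, g • x0 = x := by
    intro x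
    constructor
    · rintro ⟨g, rfl⟩
      exact ⟨g.1, g.2, rfl⟩
    · rintro ⟨g, hg, rfl⟩
      exact ⟨⟨g, hg⟩, rfl⟩
  have hBO : ∀ x ∈ O, ∀ w, B x w = B x0 w := by
    intro x hx w
    obtain ⟨g, hg, rfl⟩ := (hOmem x).1 hx
    have h2 := hB g x0 w
    rw [(hNmem g).1 hg] at h2
    exact h2
  have hOc : ∀ x ∈ O, c • x ∉ O := by
    intro x hx hx'
    have h2 := hBO x hx w0
    have h3 := hBO _ hx' w0
    rw [hBc] at h3
    omega
  have hO' : ∀ x, x ∈ O' ↔ x ∈ O ∨ c • x ∈ O := by
    intro x
    constructor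
    · rintro ⟨⟨g, hg | hg⟩, rfl⟩
      · exact Or.inl ⟨⟨g, hg⟩, rfl⟩
      · exact Or.inr ⟨⟨c * g, hg⟩, mul_smul _ _ _⟩
    · rintro (hx | hx)
      · obtain ⟨g, hg, rfl⟩ := (hOmem x).1 hx
        exact ⟨⟨g, Or.inl hg⟩, rfl⟩
      · obtain ⟨g, hg, h2⟩ := (hOmem _).1 hx
        refine ⟨⟨c * g, Or.inr ?_⟩, ?_⟩
        · rw [← mul_assoc, hset.sq, one_mul]
          exact hg
        · change (c * g) • x0 = x
          rw [mul_smul, h2, hcc]
  have hcO : O'.ncard = 2 * O.ncard := by
    have e1 : O' = O ∪ (fun x => c • x) '' O := by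
      ext x
      rw [hO', Set.mem_union, Set.mem_image]
      constructor
      · rintro (h | h)
        · exact Or.inl h
        · exact Or.inr ⟨_, h, hcc x⟩
      · rintro (h | ⟨y, hy, rfl⟩)
        · exact Or.inl h
        · right
          rw [hcc]
          exact hy
    have e2 : Disjoint O ((fun x => c • x) '' O) := by
      rw [Set.disjoint_left]
      rintro x hx ⟨y, hy, rfl⟩
      exact hOc y hy hx
    rw [e1, Set.ncard_union_eq e2 (Set.toFinite _) (Set.toFinite _),
      Set.ncard_image_of_injective _ (MulAction.injective c)]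
    ring
  have hcX : Nat.card X = 2 * ℓ := by rw [Nat.card_eq_fintype_card, hcard]
  rw [hcX, hcO] at hOd'
  have hk : O.ncard ∣ ℓ := Nat.dvd_of_mul_dvd_mul_left two_pos hOd'
  rcases (Nat.dvd_prime hℓ).1 hk with hk1 | hkℓ
  · -- the orbit is a point
    exfalso
    apply h1
    obtain ⟨y, hy⟩ := Set.ncard_eq_one.1 hk1
    have hx0 : ∀ g ∈ N, g • x0 = x0 := by
      intro g hg
      have h2 : g • x0 ∈ O := (hOmem _).2 ⟨g, hg, rfl⟩
      have h3 : x0 ∈ O := MulAction.mem_orbit_self x0
      rw [hy] at h2 h3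
      rw [h2, h3]
    obtain ⟨g, rfl⟩ := hset.trans x0 x1
    have h2 := hx0 (g⁻¹ * n * g) (by
      have := hNn.conj_mem n ((hNmem n).2 hn) g⁻¹
      rwa [inv_inv] at this)
    rw [mul_smul, mul_smul, inv_smul_eq_iff] at h2
    exact h2
  · -- two orbits
    have hall : ∀ x, x ∈ O ∨ c • x ∈ O := by
      have h2 : O' = Set.univ := by
        rw [Set.eq_univ_iff_ncard, hcX, hcO, hkℓ]
      intro x
      rw [← hO', h2]
      exact Set.mem_univ x
    let a : X → ℤ := fun x => if x ∈ O then 1 else -1
    have ha1 : ∀ x ∈ O, a x = 1 := fun x hx => if_pos hx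
    have ha2 : ∀ x, x ∉ O → a x = -1 := fun x hx => if_neg hx
    refine ⟨a, B x0, fun x => ?_, fun x w => ?_, fun x => ?_⟩
    · by_cases hx : x ∈ O
      · exact Or.inl (ha1 x hx)
      · exact Or.inr (ha2 x hx)
    · by_cases hx : x ∈ O
      · rw [ha1 x hx, one_mul]
        exact hBO x hx w
      · have h2 := (hall x).resolve_left hx
        have h3 := hBO _ h2 w
        rw [hBc] at h3
        rw [ha2 x hx]
        omega
    · by_cases hx : x ∈ O
      · rw [ha1 x hx, ha2 _ (hOc x hx)]
      · rw [ha2 x hx, ha1 _ ((hall x).resolve_left hx)]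
        norm_num

/-- A group element of `ℓ`-power order which acts without fixed points on `X` acts trivially on small
sets. -/
theorem exists_fix [Fintype W] (hset : Setting G X c) {ℓ : ℕ} (hℓ : ℓ.Prime) (hℓ2 : ℓ ≠ 2)
    (hcard : Fintype.card X = 2 * ℓ) (hcW : ∀ w : W, c • w ≠ w) (hW : Fintype.card W < 2 * ℓ) :
    ∃ n : G, (∀ w : W, n • w = w) ∧ ∃ x : X, n • x ≠ x := by
  classical
  have hf : Fact ℓ.Prime := ⟨hℓ⟩
  obtain ⟨τ, hτg, hτ⟩ := exists_cyc hset hℓ hℓ2 hcard
  have hX : Nonempty X := by
    rw [← Fintype.card_pos_iff, hcard]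
    have := hℓ.pos
    omega
  obtain ⟨x0⟩ := hX
  -- the part of `τ` of `ℓ`-power order
  have hG : Nat.card G ≠ 0 := Nat.card_pos.ne'
  obtain ⟨k, m, hm, hk⟩ := Nat.exists_eq_pow_mul_and_not_dvd hG ℓ hℓ.ne_one
  let g : G := τ ^ m
  have hgo : g ^ ℓ ^ k = 1 := by
    change (τ ^ m) ^ ℓ ^ k = 1
    rw [← pow_mul, mul_comm, ← hk]
    exact pow_card_eq_one'
  have hgx : ∀ x : X, g • x ≠ x := by
    intro x h
    obtain ⟨u, -, hu⟩ := Nat.exists_mul_mod_eq_one_of_coprime
      (Nat.Coprime.symm ((Nat.Prime.coprime_iff_not_dvd hℓ).2 hm)) hℓ.one_lt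
    have h1 : ∀ u : ℕ, τ ^ (m * u) • x = x := by
      intro u
      induction u with
      | zero => simp
      | succ u ih => rw [mul_add, mul_one, pow_add, mul_smul, h, ih]
    have h2 : τ ^ (m * u) • x = τ ^ 1 • x := by
      refine pow_smul_eq hτg ?_ x
      rw [Nat.ModEq, hu, Nat.mod_eq_of_lt hℓ.one_lt]
    rw [h1, pow_one] at h2
    exact hτ x h2.symm
  refine ⟨g, fun w => ?_, x0, hgx x0⟩
  by_contra hw
  -- the orbit of `w`
  let P : Subgroup G := Subgroup.zpowers g
  have hP : IsPGroup ℓ P := by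
    rintro ⟨y, hy⟩
    obtain ⟨i, rfl⟩ := hy
    refine ⟨k, Subtype.ext ?_⟩
    change (g ^ i) ^ ℓ ^ k = 1
    rw [← zpow_natCast, ← zpow_mul, mul_comm, zpow_mul, zpow_natCast, hgo, one_zpow]
  obtain ⟨r, hr⟩ := hP.card_orbit w
  have hr0 : r ≠ 0 := by
    rintro rfl
    rw [pow_zero] at hr
    have h1 : (MulAction.orbit P w).ncard = 1 := hr
    obtain ⟨y, hy⟩ := Set.ncard_eq_one.1 h1
    have h2 : g • w ∈ MulAction.orbit P w := ⟨⟨g, Subgroup.mem_zpowers g⟩, rfl⟩
    have h3 : w ∈ MulAction.orbit P w := MulAction.mem_orbit_self w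
    rw [hy] at h2 h3
    exact hw (h2.trans h3.symm)
  let O : Set W := MulAction.orbit P w
  have hOc : ∀ y ∈ O, c • y ∈ O → False := by
    intro y hy hcy
    -- the orbit is stable under `c`
    have hstab : ∀ z ∈ O, c • z ∈ O := by
      intro z hz
      have h1 : MulAction.orbit P y = O := MulAction.orbit_eq_iff.2 hy
      rw [← h1] at hz
      obtain ⟨u, rfl⟩ := hz
      have h2 : c • (u • y) = u • (c • y) := by
        change c • ((u : G) • y) = (u : G) • (c • y)
        rw [← mul_smul, hset.comm, mul_smul]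
      change c • (u • y) ∈ O
      rw [h2]
      obtain ⟨v, hv⟩ := hcy
      exact ⟨u * v, by
        change (u * v) • w = u • (c • y)
        rw [mul_smul]
        exact congrArg _ hv⟩
    have heven : Even (Nat.card O) := by
      have hfO : Fintype O := Fintype.ofFinite _
      rw [Nat.card_eq_fintype_card]
      let f : O → O := fun z => ⟨c • z.1, hstab z.1 z.2⟩
      have hf2 : Function.Involutive f := fun z => Subtype.ext (by
        change c • c • z.1 = z.1
        rw [← mul_smul, hset.sq, one_smul])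
      have h3 : Fintype.card O ≡ Fintype.card (Function.fixedPoints f) [MOD 2] := by
        refine Equiv.Perm.card_fixedPoints_modEq (α := O) (f := f) (p := 2) (n := 1) ?_
        rw [pow_one, pow_two]
        exact funext hf2
      have h4 : Fintype.card (Function.fixedPoints f) = 0 := by
        rw [Fintype.card_eq_zero_iff]
        exact ⟨fun z => hcW z.1.1 (congrArg Subtype.val z.2)⟩
      rw [h4] at h3
      exact Nat.even_iff.2 h3
    have h5 : Nat.card O = ℓ ^ r := hr
    rw [h5] at heven
    exact (Nat.not_even_iff_odd.2 ((hℓ.odd_of_ne_two hℓ2).pow)) heven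
  have hdis : Disjoint O ((fun z => c • z) '' O) := by
    rw [Set.disjoint_left]
    rintro z hz ⟨y, hy, rfl⟩
    exact hOc y hy hz
  have h6 : (O ∪ (fun z => c • z) '' O).ncard = 2 * O.ncard := by
    rw [Set.ncard_union_eq hdis (Set.toFinite _) (Set.toFinite _),
      Set.ncard_image_of_injective _ (MulAction.injective c)]
    ring
  have h7 : (O ∪ (fun z => c • z) '' O).ncard ≤ Fintype.card W := by
    rw [← Nat.card_eq_fintype_card]
    exact Set.ncard_le_card _
  have h8 : O.ncard = ℓ ^ r := hr
  have h9 : ℓ ≤ ℓ ^ r := Nat.le_self_pow hr0 ℓ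
  omega

end

end Pool.Agent.T9h37.BI
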