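import Pool.Agent.W495.FM.HomDefs

/-!
# Abelian varieties over finite fields whose factors split in independent blocks: definitions
-/

set_option autoImplicit false

namespace Pool.Agent.T9h37.BI

open NumberField Module Pool.Agent.W495.TA Pool.Agent.W495.FM

noncomputable section

/-! ### Number fields -/

/-- The automorphism `τ` of the field of complex numbers is the identity on the image of `φ` and the
complex conjugation on the image of `ψ`. -/
def FixesAndConjugates {E K : Type} [Field E] [Field K] (τ : ℂ ≃+* ℂ) (φ : E →+* ℂ)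
    (ψ : K →+* ℂ) : Prop :=
  (∀ x, τ (φ x) = φ x) ∧ ∀ y, τ (ψ y) = star (ψ y)

/-- For all complex embeddings `φ` of `E` and `ψ` of `K` some automorphism of the field of complex numbers is
the identity on the image of `φ` and the complex conjugation on the image of `ψ`. -/
def Indep (E K : Type) [Field E] [Field K] : Prop :=
  ∀ (φ : E →+* ℂ) (ψ : K →+* ℂ), ∃ τ : ℂ ≃+* ℂ, FixesAndConjugates τ φ ψ

/-- The same for any two embeddings of one field `E` which are neither equal nor complex conjugate. -/
def IsFull (E : Type) [Field E] : Prop :=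
  ∀ φ ψ : E →+* ℂ, ψ ≠ φ → ψ ≠ ComplexEmbedding.conjugate φ →
    ∃ τ : ℂ ≃+* ℂ, FixesAndConjugates τ φ ψ

/-- The field `E` is general: it is full, or its degree is `2 ℓ`, `ℓ` an odd prime number, and it contains no imaginary
quadratic field. -/
def IsGeneral (E : Type) [Field E] [NumberField E] : Prop :=
  IsFull E ∨ ∃ ℓ : ℕ, ℓ.Prime ∧ ℓ ≠ 2 ∧ finrank ℚ E = 2 * ℓ ∧
    ∀ (F : Type) [Field F] [NumberField F] [IsCMField F], finrank ℚ F = 2 → IsEmpty (F →+* E)

/-- Some automorphism of the field of complex numbers fixes all conjugates of the field `K`, but not all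
real numbers in the conjugates of `E`. -/
def RealApart (E K : Type) [Field E] [Field K] : Prop :=
  ∃ τ : ℂ ≃+* ℂ, (∀ (ψ : K →+* ℂ) (y : K), τ (ψ y) = ψ y) ∧
    ∃ (φ : E →+* ℂ) (x : E), star (φ x) = φ x ∧ τ (φ x) ≠ φ x

/-- No imaginary quadratic field can be embedded in `E` and in `K`. -/
def NoCommonQuadratic (E K : Type) [Field E] [Field K] : Prop :=
  ∀ (F : Type) [Field F] [NumberField F] [IsCMField F], finrank ℚ F = 2 →
    IsEmpty (F →+* E) ∨ IsEmpty (F →+* K)

/-- The degree of the CM field `E` is `2 ℓ`, `ℓ` an odd prime number, no imaginary quadratic field can be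
embedded in `E` and `K`, and the degree of the field `K` is smaller than `2 ℓ` or the maximal real subfield
of `E` cannot be embedded in the Galois closure of `K` (`RealApart`). -/
def PrimeApart (E K : Type) [Field E] [NumberField E] [Field K] [NumberField K] : Prop :=
  ∃ ℓ : ℕ, ℓ.Prime ∧ ℓ ≠ 2 ∧ finrank ℚ E = 2 * ℓ ∧ NoCommonQuadratic E K ∧
    (finrank ℚ K < 2 * ℓ ∨ RealApart E K)

/-- The CM fields `E` and `K` are independent in one of three ways. -/
def Apart (E K : Type) [Field E] [NumberField E] [Field K] [NumberField K] : Prop :=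
  Indep E K ∨ PrimeApart E K ∨ PrimeApart K E

/-- The field `E` is Galois over `ℚ`, or its Galois closure (in `ℂ`) is different from that of `K`. -/
def ClosureApart (E K : Type) [Field E] [NumberField E] [Field K] [NumberField K] : Prop :=
  IsGalois ℚ E ∨
    IntermediateField.normalClosure ℚ E ℂ ≠ IntermediateField.normalClosure ℚ K ℂ

/-! ### Frobenius numbers -/

open Classical in
/-- The norm of the number `x` of the CM field `E` of degree `2 ℓ` to an imaginary quadratic subfield (the product
of the complex conjugates of `x` for the embeddings with the same restriction to the subfield) is not a square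
root of `q ^ ℓ` up to a root of unity. (For example, `E` contains no imaginary quadratic field, or `x` is
the Frobenius number of an ordinary abelian variety and `ℓ` is odd.) -/
def NormFree (q : ℕ) {E : Type} [Field E] [NumberField E] (ℓ : ℕ) (x : E) : Prop :=
  ∀ (F : Type) [Field F] [NumberField F] [IsCMField F] (ι : F →+* E) (κ : F →+* ℂ) (s : ℕ),
    finrank ℚ F = 2 → 0 < s →
      (∏ φ : E →+* ℂ, if φ.comp ι = κ then φ x else 1) ^ (2 * s) ≠ (q : ℂ) ^ (s * ℓ)

/-- The degree of the CM field `E` is `2 ℓ`, `ℓ` an odd prime number, and the norms of the number `x ∈ E` to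
imaginary quadratic fields are not of supersingular type. -/
def IsPrimeNumber (q : ℕ) {E : Type} [Field E] [NumberField E] (x : E) : Prop :=
  ∃ ℓ : ℕ, ℓ.Prime ∧ ℓ ≠ 2 ∧ finrank ℚ E = 2 * ℓ ∧ NormFree q ℓ x

/-- The number `x ∈ E` is the image of `y ∈ F` under an isomorphism of fields. -/
def IsIsoImage {F E : Type} [Field F] [Field E] (y : F) (x : E) : Prop :=
  ∃ θ : F ≃+* E, θ y = x

/-- The slopes of the numbers `x k ∈ E`, `k ∈ S`, minus `1 / 2` (normalised by the slope one of `q = p ^ a`) are
linearly independent over `ℚ`, as functions on the set of the complex embeddings `φ` of `E`: for the `p`-adic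
absolute values, a relation `∏ |φ (x k)| ^ (2 c k) = |q| ^ (∑ c k)` for all `φ`, with `c k = 0` for `k ∉ S`,
is possible only for `c = 0`. -/
def SlopesIndependent {p : ℕ} [Fact p.Prime] (ν : PadicAlgCl p ≃+* ℂ) (a : ℕ) {I E : Type}
    [Fintype I] [Field E] (S : Set I) (x : I → E) : Prop :=
  ∀ c : I → ℤ, (∀ k, k ∉ S → c k = 0) → (∀ φ : E →+* ℂ,
    ∏ k, ‖ν.symm (φ (x k))‖ ^ (2 * c k) = ‖(p : PadicAlgCl p)‖ ^ (a * ∑ k, c k)) → c = 0

/-- A power of `x ^ 2` is a power of `p ^ a`: the factor with the Frobenius number `x` is supersingular. -/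
def IsSS (p a : ℕ) {E : Type} [Field E] (x : E) : Prop :=
  ∃ s : ℕ, 0 < s ∧ x ^ (2 * s) = ((p : E) ^ a) ^ s

/-- A power of `y` is the image of a power of `x` under an embedding of fields (the exponents correspond to
the same extension of the fields with `p ^ a` and `p ^ b` elements): the factor with the Frobenius number
`y` is, over an algebraic closure, isogenous to a power of the one with the Frobenius number `x`. -/
def IsPow (a b : ℕ) {E F : Type} [Field E] [Field F] (x : E) (y : F) : Prop :=
  ∃ (ι : E →+* F) (s t : ℕ), 0 < s ∧ 0 < t ∧ b * s = a * t ∧ y ^ s = ι (x ^ t)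

/-! ### Abelian varieties -/

variable {p : ℕ} [Fact p.Prime] {ν : PadicAlgCl p ≃+* ℂ}

/-- The degree of the CM field of the factor `i` of `Z`: two times the dimension of the factor. -/
def deg (Z : RedAV p ν) (i : Z.X.I) : ℕ := finrank ℚ (Z.X.factor i).E

/-- The CM fields of the factors of `Z` in `S` are isomorphic to the CM field of the factor with the index `i`, which
is general, by isomorphisms which map the Frobenius numbers `π k` to `x k`, and the slopes of the numbers
`x k`, `k ∈ S`, are linearly independent. -/
def IsIsotypic (Z : RedAV p ν) (i : Z.X.I) (S : Set Z.X.I) : Prop :=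
  IsGeneral (Z.X.factor i).E ∧ ∃ x : Z.X.I → (Z.X.factor i).E,
    (∀ k ∈ S, IsIsoImage (Z.π k) (x k)) ∧ SlopesIndependent ν Z.a S x

/-- The factors of `Z` in `S` have dimension at most three, and any two of them have CM fields with different
Galois closures, unless these fields are Galois over `ℚ` (for example, all elliptic curves). -/
def IsSmall (Z : RedAV p ν) (S : Set Z.X.I) : Prop :=
  ∀ i ∈ S, deg Z i ≤ 6 ∧ ∀ k ∈ S, k ≠ i → ClosureApart (Z.X.factor i).E (Z.X.factor k).E

/-- The factors of `Z` are divided in blocks (`b i = b k` means that `i` and `k` are in the same block), such that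
the CM fields of factors in different blocks are independent (`Apart`), and each block consists of one factor, of
dimension at most five or of odd prime dimension (`IsPrimeNumber`), or it consists of factors with the same
general CM field and linearly independent slopes (`IsIsotypic`), or of small factors (`IsSmall`). -/
def HasBlocks (Z : RedAV p ν) : Prop :=
  ∃ b : Z.X.I → ℕ, (∀ i k, b i ≠ b k → Apart (Z.X.factor i).E (Z.X.factor k).E) ∧
    ∀ i, ((∀ k, b k = b i → k = i) ∧ (deg Z i ≤ 10 ∨ IsPrimeNumber (p ^ Z.a) (Z.π i))) ∨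
      IsIsotypic Z i {k | b k = b i} ∨ IsSmall Z {k | b k = b i}

/-- The abelian variety `Y` is, over an algebraic closure, isogenous to the product of a supersingular abelian
variety and of powers of factors of an abelian variety `Z` as above. -/
def IsBlockAV (Y : RedAV p ν) : Prop :=
  ∃ Z : RedAV p ν, HasBlocks Z ∧ ∀ i, IsSS p Y.a (Y.π i) ∨ ∃ k, IsPow Z.a Y.a (Z.π k) (Y.π i)

/-- The groups of motivic and of `ℓ`-adic homology of `X` are those of an abelian variety `Y` as above. -/
def IsBlockAbelian {Ω V : Type} [Field Ω] [CharZero Ω] (p : ℕ) [Fact p.Prime]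
    (ν : PadicAlgCl p ≃+* ℂ) (T : Homology Ω V) (X : V) : Prop :=
  ∃ (Y : RedAV p ν) (C : Cycles Ω Y) (M : Motivic C) (g : ℕ), IsBlockAV Y ∧ IsChow C ∧
    IsMotivic M ∧ IsAbelian T X M g

end

end Pool.Agent.T9h37.BI
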