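import Pool.Agent.T9h37.BI.Comb
import Pool.Agent.T9h37.BI.Defs
import Pool.Agent.TH117.BL.Defs
import Pool.Agent.T9h37.CT.FdLem

/-!
# Independent CM fields: the scalar products of the valuation functions vanish
-/

set_option autoImplicit false
set_option linter.unusedSectionVars false
set_option linter.unusedVariables false

namespace Pool.Agent.T9h37.BI

open NumberField Pool.Agent.H204R3.CM Pool.Agent.W547.KB Pool.Agent.W547.LD Pool.Agent.W547.HR
  Pool.Agent.W495.TA Module Pool.Agent.TH117.PO Pool.Agent.W976.TA Pool.Agent.W417.TA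
  Pool.Agent.TH117.BL Pool.Agent.W495.TC Pool.Agent.W495.TB Pool.Agent.TH117.F5 Pool.Agent.N202.QR
open scoped TensorProduct

noncomputable section

variable {L : Type} [Field L] [NumberField L] [IsCMField L] [IsGalois ℚ L]

/-- Automorphisms of the complex numbers and of `L`. -/
theorem exists_restrict (j : L →+* ℂ) (τ : ℂ ≃+* ℂ) :
    ∃ g : L ≃ₐ[ℚ] L, ∀ x, j (g x) = τ (j x) := by
  let _ : Algebra L ℂ := j.toAlgebra
  have : IsScalarTower ℚ L ℂ := inferInstance
  let τ' : ℂ ≃ₐ[ℚ] ℂ := AlgEquiv.ofRingEquiv (f := τ) fun r => by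
    rw [eq_ratCast, map_ratCast]
  exact ⟨τ'.restrictNormal L, fun x => AlgEquiv.restrictNormal_commutes τ' L x⟩

/-- The imaginary quadratic field of a subgroup of index two. -/
theorem quad_fld (j : L →+* ℂ) {N : Subgroup (L ≃ₐ[ℚ] L)} (hN : IsImag N) :
    (IsCMField (fld (N : Set (L ≃ₐ[ℚ] L))) ∧ finrank ℚ (fld (N : Set (L ≃ₐ[ℚ] L))) = 2) ∧
      ∀ (x : L), x ∈ fld (N : Set (L ≃ₐ[ℚ] L)) ↔ ∀ τ ∈ N, τ x = x := by
  classical
  have hS : IsHalf (N : Set (L ≃ₐ[ℚ] L)) := by
    intro σ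
    change σ ∈ N ↔ ¬ (cc L * σ ∈ N)
    rw [hN.mul_mem_iff j]
    have := hN.1
    tauto
  have hstab : ∀ τ, τ ∈ stab (N : Set (L ≃ₐ[ℚ] L)) ↔ τ ∈ N := by
    intro τ
    rw [mem_stab]
    constructor
    · intro h
      have h1 : (1 : L ≃ₐ[ℚ] L) ∈ tr τ (N : Set (L ≃ₐ[ℚ] L)) := by
        rw [h]
        exact N.one_mem
      rw [mem_tr, one_mul] at h1
      exact h1
    · intro h
      ext σ
      rw [mem_tr]
      exact N.mul_mem_cancel_right h
  have hCM : IsCMField (fld (N : Set (L ≃ₐ[ℚ] L))) := isCM_fld j hS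
  let κ : fld (N : Set (L ≃ₐ[ℚ] L)) →+* ℂ := j.comp (emb (N : Set (L ≃ₐ[ℚ] L)) 1)
  have htwo : finrank ℚ (fld (N : Set (L ≃ₐ[ℚ] L))) = 2 := by
    have h1 : ({κ, ComplexEmbedding.conjugate κ} :
        Finset (fld (N : Set (L ≃ₐ[ℚ] L)) →+* ℂ)) = Finset.univ := by
      refine Finset.eq_univ_iff_forall.2 fun ψ => ?_
      rw [Finset.mem_insert, Finset.mem_singleton]
      obtain ⟨τ, rfl⟩ := exists_embC j (N : Set (L ≃ₐ[ℚ] L)) ψ
      by_cases hτ : τ ∈ N
      · left
        have h2 : emb (N : Set (L ≃ₐ[ℚ] L)) τ = emb (N : Set (L ≃ₐ[ℚ] L)) 1 := by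
          rw [emb_eq_iff, tr_one]
          exact (hstab τ).2 hτ
        rw [h2]
      · right
        have h2 : emb (N : Set (L ≃ₐ[ℚ] L)) (cc L * τ) = emb (N : Set (L ≃ₐ[ℚ] L)) 1 := by
          rw [emb_eq_iff, tr_one]
          exact (hstab _).2 (hN.2 τ hτ)
        change _ = ComplexEmbedding.conjugate (j.comp (emb (N : Set (L ≃ₐ[ℚ] L)) 1))
        rw [← h2, ← conj_emb]
        exact (star_star _).symm
    rw [← Embeddings.card (fld (N : Set (L ≃ₐ[ℚ] L))) ℂ, ← Finset.card_univ, ← h1,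
      Finset.card_pair (Pool.Agent.TH117.BL.conj_ne κ).symm]
  refine ⟨⟨hCM, htwo⟩, fun x => ?_⟩
  rw [mem_fld]
  exact ⟨fun h τ hτ => h τ ((hstab τ).2 hτ), fun h τ hτ => h τ ((hstab τ).1 hτ)⟩

/-- The imaginary quadratic field of a subgroup of index two which contains the stabilizer of an
embedding of `E` is a subfield of `E`. -/
theorem fld_emb (j : L →+* ℂ) {N : Subgroup (L ≃ₐ[ℚ] L)} (hN : IsImag N) {E : Type} [Field E]
    [NumberField E] (w0 : E →+* L) (hst : ∀ τ : L ≃ₐ[ℚ] L, τ • w0 = w0 → τ ∈ N) :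
    ∃ f : fld (N : Set (L ≃ₐ[ℚ] L)) →+* E, ∀ x, w0 (f x) = x := by
  let f : E →ₐ[ℚ] L := RingHom.equivRatAlgHom E L w0
  have hle : fld (N : Set (L ≃ₐ[ℚ] L)) ≤ f.fieldRange := by
    intro x hx
    have h1 : f.fieldRange = IntermediateField.fixedField f.fieldRange.fixingSubgroup :=
      (IsGalois.fixedField_fixingSubgroup f.fieldRange).symm
    rw [h1, IntermediateField.mem_fixedField_iff]
    intro τ hτ
    rw [IntermediateField.mem_fixingSubgroup_iff] at hτ
    have h2 : τ • w0 = w0 := by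
      ext z
      exact hτ (w0 z) ⟨z, rfl⟩
    exact ((quad_fld j hN).2 x).1 hx τ (hst τ h2)
  refine ⟨((AlgEquiv.ofInjectiveField f).symm : f.range →+* E).comp
    ((algebraMap (fld (N : Set (L ≃ₐ[ℚ] L))) L).codRestrict f.range fun x => hle x.2), fun x => ?_⟩
  have h3 := (AlgEquiv.ofInjectiveField f).apply_symm_apply
    (((algebraMap (fld (N : Set (L ≃ₐ[ℚ] L))) L).codRestrict f.range fun x => hle x.2) x)
  exact congrArg Subtype.val h3

variable {p : ℕ} [Fact p.Prime] {ν : PadicAlgCl p ≃+* ℂ} {j : L →+* ℂ}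

/-- The scalar product of the functions of two embeddings. -/
def bil (p : ℕ) [Fact p.Prime] (ν : PadicAlgCl p ≃+* ℂ) (j : L →+* ℂ) (A A' : CMPair)
    (φ : A.E →+* L) (ψ : A'.E →+* L) : ℤ :=
  ∑ h : L ≃ₐ[ℚ] L, nn p ν j A φ h * nn p ν j A' ψ h

variable {A A' : CMPair}

theorem bil_comm (φ : A.E →+* L) (ψ : A'.E →+* L) : bil p ν j A A' φ ψ = bil p ν j A' A ψ φ :=
  Finset.sum_congr rfl fun _ _ => mul_comm _ _

theorem bil_smul (σ : L ≃ₐ[ℚ] L) (φ : A.E →+* L) (ψ : A'.E →+* L) :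
    bil p ν j A A' (σ • φ) (σ • ψ) = bil p ν j A A' φ ψ := by
  unfold bil
  rw [nn_smul, nn_smul]
  exact Fintype.sum_equiv (Equiv.mulRight σ) _ _ fun h => rfl

theorem bil_cc (φ : A.E →+* L) (ψ : A'.E →+* L) :
    bil p ν j A A' (cc L • φ) ψ = -bil p ν j A A' φ ψ := by
  unfold bil
  rw [nn_cc, ← Finset.sum_neg_distrib]
  refine Finset.sum_congr rfl fun h _ => ?_
  rw [Pi.neg_apply]
  ring

theorem bil_cc' (φ : A.E →+* L) (ψ : A'.E →+* L) :
    bil p ν j A A' φ (cc L • ψ) = -bil p ν j A A' φ ψ := by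
  rw [bil_comm, bil_cc, bil_comm]

theorem comp_inj {E : Type} [Field E] {φ ψ : E →+* L} (h : j.comp φ = j.comp ψ) : φ = ψ := by
  ext a
  exact j.injective (RingHom.congr_fun h a)

theorem comp_smul_star (φ : A.E →+* L) (x : A.E) :
    j ((cc L • φ) x) = star (j (φ x)) := RingHom.congr_fun (comp_smul_cc j A φ) x

theorem bil_of (τ : ℂ ≃+* ℂ) (φ : A.E →+* L) (ψ : A'.E →+* L)
    (h : FixesAndConjugates τ (j.comp φ) (j.comp ψ)) : bil p ν j A A' φ ψ = 0 := by
  obtain ⟨g, hg⟩ := exists_restrict j τ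
  have h1 : g • φ = φ := by
    ext x
    apply j.injective
    change j (g (φ x)) = j (φ x)
    rw [hg]
    exact h.1 x
  have h2 : g • ψ = cc L • ψ := by
    ext x
    apply j.injective
    rw [comp_smul_star]
    change j (g (ψ x)) = star (j (ψ x))
    rw [hg]
    exact h.2 x
  have h3 := bil_smul (p := p) (ν := ν) (j := j) g φ ψ
  rw [h1, h2, bil_cc'] at h3
  omega

theorem bil_indep (h : Indep A.E A'.E) (φ : A.E →+* L) (ψ : A'.E →+* L) :
    bil p ν j A A' φ ψ = 0 := by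
  obtain ⟨τ, hτ⟩ := h (j.comp φ) (j.comp ψ)
  exact bil_of τ φ ψ hτ

theorem bil_prime (h : PrimeApart A.E A'.E) (hA : BigA A j) (hA' : BigA A' j) (φ : A.E →+* L)
    (ψ : A'.E →+* L) : bil p ν j A A' φ ψ = 0 := by
  classical
  obtain ⟨ℓ, hℓ, hℓ2, hdeg, hQ, hr⟩ := h
  by_contra h0
  have hfin := finite_emb j A
  let _ : Fintype (A.E →+* L) := Fintype.ofFinite _
  have hfin' := finite_emb j A'
  let _ : Fintype (A'.E →+* L) := Fintype.ofFinite _
  have hset := setting j A (L := L)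
  have hset' := setting j A' (L := L)
  have hcard : Fintype.card (A.E →+* L) = 2 * ℓ := (card_emb hA).trans hdeg
  obtain ⟨n, hn, x1, hx1⟩ : ∃ n : L ≃ₐ[ℚ] L, (∀ w : A'.E →+* L, n • w = w) ∧
      ∃ x : A.E →+* L, n • x ≠ x := by
    rcases hr with hr | ⟨τ, hτ, φ1, x, hx, hτx⟩
    · exact exists_fix hset hℓ hℓ2 hcard hset'.ne (by rw [card_emb hA']; exact hr)
    · obtain ⟨g, hg⟩ := exists_restrict j τ
      refine ⟨g, fun w => ?_, ?_⟩
      · ext y
        apply j.injective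
        change j (g (w y)) = j (w y)
        rw [hg]
        exact hτ (j.comp w) y
      · obtain ⟨φ1', rfl⟩ := hA φ1
        refine ⟨φ1', fun h => hτx ?_⟩
        have h1 := RingHom.congr_fun h x
        change τ (j (φ1' x)) = j (φ1' x)
        rw [← hg]
        exact congrArg j h1
  obtain ⟨a, b, ha, hab, hac⟩ := split_of_prime hset hℓ hcard (bil p ν j A A')
    (fun σ x w => bil_smul σ x w) (fun x w => bil_cc x w) n hn x1 hx1 φ ψ h0
  have hbψ : b ψ ≠ 0 := by
    intro h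
    rw [hab, h, mul_zero] at h0
    exact h0 rfl
  -- the character
  have hchar : ∀ (σ : L ≃ₐ[ℚ] L), (∀ x, a (σ • x) = a x) ∧ (∀ w, b (σ • w) = b w) ∨
      (∀ x, a (σ • x) = -a x) ∧ ∀ w, b (σ • w) = -b w := by
    intro σ
    have h1 : ∀ x w, a (σ • x) * b (σ • w) = a x * b w := by
      intro x w
      rw [← hab, ← hab, bil_smul]
    have h2 : a (σ • φ) = a φ ∨ a (σ • φ) = -a φ := by
      rcases ha (σ • φ) with h3 | h3 <;> rcases ha φ with h4 | h4 <;> rw [h3, h4] <;> norm_num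
    have ha0 : a φ ≠ 0 := by
      rcases ha φ with h3 | h3 <;> rw [h3] <;> norm_num
    rcases h2 with h2 | h2
    · left
      have hb : ∀ w, b (σ • w) = b w := by
        intro w
        have h3 := h1 φ w
        rw [h2] at h3
        exact mul_left_cancel₀ ha0 h3
      refine ⟨fun x => ?_, hb⟩
      have h3 := h1 x ψ
      rw [hb] at h3
      exact mul_right_cancel₀ hbψ h3
    · right
      have hb : ∀ w, b (σ • w) = -b w := by
        intro w
        have h3 := h1 φ w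
        rw [h2] at h3
        have h4 : a φ * b (σ • w) = a φ * (-b w) := by linarith
        exact mul_left_cancel₀ ha0 h4
      refine ⟨fun x => ?_, hb⟩
      have h3 := h1 x ψ
      rw [hb] at h3
      have h4 : a (σ • x) * b ψ = -a x * b ψ := by linarith
      exact mul_right_cancel₀ hbψ h4
  let N : Subgroup (L ≃ₐ[ℚ] L) :=
    { carrier := {σ | ∀ w, a (σ • w) = a w}
      one_mem' := fun w => by rw [one_smul]
      mul_mem' := by
        intro σ τ h1 h2 w
        have h1' : ∀ w, a (σ • w) = a w := h1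
        have h2' : ∀ w, a (τ • w) = a w := h2
        rw [mul_smul, h1', h2']
      inv_mem' := by
        intro σ h1 w
        have h1' : ∀ w, a (σ • w) = a w := h1
        rw [← h1' (σ⁻¹ • w), ← mul_smul, mul_inv_cancel, one_smul] }
  have hapos : ∀ x, a x ≠ 0 := by
    intro x
    rcases ha x with h3 | h3 <;> rw [h3] <;> norm_num
  have hN : IsImag N := by
    constructor
    · intro h
      have h1 : a (cc L • φ) = a φ := h φ
      rw [hac] at h1
      have := hapos φ
      omega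
    · intro τ hτ w
      have h1 : ∀ w, a (τ • w) = -a w := by
        rcases hchar τ with h2 | h2
        · exact absurd h2.1 hτ
        · exact h2.1
      rw [mul_smul, hac, h1, neg_neg]
  obtain ⟨⟨hCM, htwo⟩, -⟩ := quad_fld j hN
  obtain ⟨f, -⟩ := fld_emb j hN φ (fun τ hτ => by
    rcases hchar τ with h2 | h2
    · exact h2.1
    · exfalso
      have h3 := h2.1 φ
      rw [hτ] at h3
      have := hapos φ
      omega)
  obtain ⟨f', -⟩ := fld_emb j hN ψ (fun τ hτ => by
    rcases hchar τ with h2 | h2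
    · exact h2.1
    · exfalso
      have h3 := h2.2 ψ
      rw [hτ] at h3
      omega)
  rcases hQ (fld (N : Set (L ≃ₐ[ℚ] L))) htwo with h1 | h1
  · exact h1.false f
  · exact h1.false f'

theorem bil_apart (h : Apart A.E A'.E) (hA : BigA A j) (hA' : BigA A' j) (φ : A.E →+* L)
    (ψ : A'.E →+* L) : bil p ν j A A' φ ψ = 0 := by
  rcases h with h | h | h
  · exact bil_indep h φ ψ
  · exact bil_prime h hA hA' φ ψ
  · rw [bil_comm]
    exact bil_prime h hA' hA ψ φ

end

end Pool.Agent.T9h37.BI
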