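import Pool.Agent.T9h37.BI.Block

/-!
# Sets with `2 ℓ` elements, `ℓ` a prime number: sign changes at one pair, or semi-invariant functions
-/

set_option autoImplicit false
set_option linter.unusedSectionVars false
set_option linter.unusedVariables false

namespace Pool.Agent.T9h37.BI

open Pool.Agent.W495.TA Pool.Agent.N202.QR

noncomputable section

variable {G X : Type} [Group G] [Finite G] [Fintype X] [MulAction G X] {c : G}

/-- If a semi-invariant function `ε` with values `±1` occurs then it is a character. -/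
theorem semi_of_line {T : X → G → ℤ} (hT : ∀ σ x h, T (σ • x) h = T x (h * σ)) {t : G → ℤ}
    {ε : X → ℤ} (hε : ∀ x, ε x = 1 ∨ ε x = -1) (ht : ∀ x h, T x h = ε x * t h) {h0 : G}
    (ht0 : t h0 ≠ 0) (σ : G) : (∀ x, ε (σ • x) = ε x) ∨ ∀ x, ε (σ • x) = -ε x := by
  have h1 : ∀ x, ε (σ • x) * t h0 = ε x * t (h0 * σ) := by
    intro x
    rw [← ht, ← ht, hT]
  by_cases h2 : ∀ x, ε (σ • x) = ε x
  · exact Or.inl h2
  · push Not at h2
    obtain ⟨x1, hx1⟩ := h2
    have h3 : ε (σ • x1) = -ε x1 := by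
      rcases hε (σ • x1) with h4 | h4 <;> rcases hε x1 with h5 | h5 <;> rw [h4, h5] at hx1 ⊢ <;>
        first | exact absurd rfl hx1 | norm_num
    have h4 := h1 x1
    rw [h3] at h4
    have h5 : t (h0 * σ) = -t h0 := by
      rcases hε x1 with h6 | h6 <;> rw [h6] at h4 <;> linarith
    right
    intro x
    have h6 := h1 x
    rw [h5] at h6
    have h7 : (ε (σ • x) + ε x) * t h0 = 0 := by linarith
    rcases mul_eq_zero.1 h7 with h8 | h8
    · linarith
    · exact absurd h8 ht0

/-- A line of relations is semi-invariant. -/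
theorem semi_of_orbit (hset : Setting G X c) {T : X → G → ℤ}
    (hT : ∀ σ x h, T (σ • x) h = T x (h * σ)) {x0 : X} {ε : X → ℤ}
    (hε : ∀ a : X → ℤ, (∀ x, a (c • x) = -a x) → (∀ h, ∑ x, a x * T x h = 0) →
      ∀ x, a x = ε x * a x0) {a : X → ℤ} (hac : ∀ x, a (c • x) = -a x)
    (hsum : ∀ h, ∑ x, a x * T x h = 0) {v0 : X} (hv0 : a v0 ≠ 0) (σ : G) :
    (∀ x, a (σ • x) = a x) ∨ ∀ x, a (σ • x) = -a x := by
  have hεa : ∀ (σ : G) x, a (σ • x) = ε x * a (σ • x0) := by
    intro σ x
    refine hε (fun x => a (σ • x)) (fun x => ?_) (fun h => ?_) x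
    · rw [← mul_smul, ← hset.comm, mul_smul, hac]
    · have h1 := hsum (h * σ⁻¹)
      rw [← h1]
      refine Fintype.sum_equiv (MulAction.toPerm σ) _ _ fun φ => ?_
      change a (σ • φ) * T φ h = a (σ • φ) * T (σ • φ) (h * σ⁻¹)
      rw [hT, inv_mul_cancel_right]
  have ha : ∀ (σ : G) (w w' : X), a (σ • w) * a w' = a (σ • w') * a w := by
    intro σ w w'
    have h1 := hεa 1
    simp only [one_smul] at h1
    rw [hεa σ w, hεa σ w', h1 w, h1 w']
    ring
  have : Nonempty X := ⟨v0⟩
  obtain ⟨w1, hw1⟩ := Finite.exists_max fun w => |a w|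
  have hw1' : a w1 ≠ 0 := by
    intro h
    have h1 := hw1 v0
    rw [h, abs_zero] at h1
    exact hv0 (abs_nonpos_iff.1 h1)
  have h1 := ha σ w1 (σ⁻¹ • w1)
  have h2 : σ • σ⁻¹ • w1 = w1 := smul_inv_smul σ w1
  rw [h2] at h1
  have h3 : |a (σ • w1)| * |a (σ⁻¹ • w1)| = |a w1| * |a w1| := by
    rw [← abs_mul, ← abs_mul, h1]
  have h4 := hw1 (σ • w1)
  have h5 := hw1 (σ⁻¹ • w1)
  have h6 : 0 < |a w1| := abs_pos.2 hw1'
  have h7 : |a (σ • w1)| = |a w1| := by
    by_contra hne
    have h8 : |a (σ • w1)| < |a w1| := lt_of_le_of_ne h4 hne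
    have h9 : 0 ≤ |a (σ • w1)| := abs_nonneg _
    nlinarith
  rcases abs_eq_abs.1 h7 with h8 | h8
  · refine Or.inl fun w => ?_
    have h9 := ha σ w1 w
    rw [h8] at h9
    exact (mul_left_cancel₀ hw1' (by linarith)).symm
  · refine Or.inr fun w => ?_
    have h9 := ha σ w1 w
    rw [h8] at h9
    have h10 : a w1 * a (σ • w) = a w1 * -a w := by linarith
    exact mul_left_cancel₀ hw1' h10

open Classical in
/-- **Sets with `2 ℓ` elements.** For two points `φ`, `ψ` of different pairs there is an element of `G` which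
fixes `φ` and maps `ψ` to `c ψ`, or there is a semi-invariant odd function. -/
theorem full_or_semi (hset : Setting G X c) {ℓ : ℕ} (hℓ : ℓ.Prime) (hℓ2 : ℓ ≠ 2)
    (hcard : Fintype.card X = 2 * ℓ) (φ ψ : X) (h1 : ψ ≠ φ) (h2 : ψ ≠ c • φ) :
    (∃ g : G, g • φ = φ ∧ g • ψ = c • ψ) ∨
      ∃ (a : X → ℤ) (x1 : X), a x1 ≠ 0 ∧ (∀ x, a (c • x) = -a x) ∧
        ∀ σ : G, (∀ x, a (σ • x) = a x) ∨ ∀ x, a (σ • x) = -a x := by
  by_cases hno : ∃ g : G, g • φ = φ ∧ g • ψ = c • ψ
  · exact Or.inl hno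
  right
  push Not at hno
  let _ : Fintype G := Fintype.ofFinite G
  have hcc : ∀ x : X, c • c • x = x := fun x => by rw [← mul_smul, hset.sq, one_smul]
  have hcn : ∀ (g : G) (x : X), c • g • x = g • c • x := fun g x => by
    rw [← mul_smul, hset.comm, mul_smul]
  have hcsw : ∀ x y : X, c • x = y ↔ x = c • y := by
    intro x y
    constructor
    · rintro rfl
      rw [hcc]
    · rintro rfl
      rw [hcc]
  let f : X → X → ℤ := fun x y => ∑ g : G, ((if g • φ = x ∧ g • ψ = y then 1 else 0) -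
    if g • φ = x ∧ g • ψ = c • y then 1 else 0)
  have hfinv : ∀ (σ : G) x y, f (σ • x) (σ • y) = f x y := by
    intro σ x y
    refine Fintype.sum_equiv (Equiv.mulLeft σ⁻¹) _ _ fun g => ?_
    change (if g • φ = σ • x ∧ g • ψ = σ • y then (1 : ℤ) else 0) -
      (if g • φ = σ • x ∧ g • ψ = c • σ • y then 1 else 0) =
      (if (σ⁻¹ * g) • φ = x ∧ (σ⁻¹ * g) • ψ = y then 1 else 0) -
      if (σ⁻¹ * g) • φ = x ∧ (σ⁻¹ * g) • ψ = c • y then 1 else 0
    simp only [mul_smul, inv_smul_eq_iff, hcn]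
  have hfr : ∀ x y, f x (c • y) = -f x y := by
    intro x y
    change ∑ g : G, _ = -∑ g : G, _
    rw [← Finset.sum_neg_distrib]
    refine Finset.sum_congr rfl fun g _ => ?_
    rw [hcc]
    ring
  have hfl : ∀ x y, f (c • x) y = -f x y := by
    intro x y
    have h3 := hfinv c x (c • y)
    rw [hcc, hfr] at h3
    exact h3
  have hpos : 0 < f φ ψ := by
    have h3 : ∀ g : G, (if g • φ = φ ∧ g • ψ = c • ψ then (1 : ℤ) else 0) = 0 := fun g =>
      if_neg fun h => hno g h.1 h.2
    change 0 < ∑ g : G, _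
    simp only [h3, sub_zero]
    refine Finset.sum_pos' (fun g _ => by split_ifs <;> norm_num) ⟨1, Finset.mem_univ _, ?_⟩
    rw [if_pos ⟨one_smul _ _, one_smul _ _⟩]
    norm_num
  have hdiag0 : f φ φ = 0 := by
    refine Finset.sum_eq_zero fun g _ => ?_
    rw [if_neg, if_neg, sub_zero]
    · rintro ⟨h3, h4⟩
      apply h2
      have h5 : g • ψ = g • c • φ := by rw [h4, ← hcn, h3]
      exact smul_left_cancel g h5
    · rintro ⟨h3, h4⟩
      exact h1 (smul_left_cancel g (h4.trans h3.symm))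
  have hdiag : ∀ x, f x x = 0 := by
    intro x
    obtain ⟨g, rfl⟩ := hset.trans φ x
    rw [hfinv, hdiag0]
  let d : X → X → ℤ := fun x y => (if x = y then 1 else 0) - if x = c • y then 1 else 0
  have hdinv : ∀ (σ : G) x y, d (σ • x) (σ • y) = d x y := by
    intro σ x y
    change (if σ • x = σ • y then (1 : ℤ) else 0) - (if σ • x = c • σ • y then 1 else 0) = _
    simp only [hcn, (MulAction.injective σ).eq_iff]
    rfl
  have hdr : ∀ x y, d x (c • y) = -d x y := by
    intro x y
    change (if x = c • y then (1 : ℤ) else 0) - (if x = c • c • y then 1 else 0) =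
      -((if x = y then 1 else 0) - if x = c • y then 1 else 0)
    rw [hcc]
    ring
  have hdl : ∀ x y, d (c • x) y = -d x y := by
    intro x y
    have h3 := hdinv c x (c • y)
    rw [hcc, hdr] at h3
    exact h3
  obtain ⟨τ, hτg, hτ⟩ := exists_cyc hset hℓ hℓ2 hcard
  obtain ⟨u, hub, hu1, hu2⟩ := orbit_equiv hset hℓ hℓ2 hcard hτg hτ φ
  -- the points of the orbit of `φ`
  let P : X → Prop := fun y => ∃ i : ℕ, y = τ ^ i • φ
  have hPmod : ∀ y, P y → ∃ i : Fin ℓ, y = u (i, true) := by
    rintro y ⟨i, rfl⟩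
    refine ⟨⟨i % ℓ, Nat.mod_lt _ hℓ.pos⟩, ?_⟩
    rw [hu1]
    exact pow_smul_eq hτg (Nat.mod_modEq i ℓ).symm φ
  have hPc : ∀ y, P (c • y) ↔ ¬ P y := by
    intro y
    obtain ⟨⟨i, b⟩, rfl⟩ := hub.2 y
    cases b
    · have h3 : P (c • u (i, false)) := ⟨i, by rw [hu2, hcc]⟩
      refine iff_of_true h3 fun h4 => ?_
      obtain ⟨k, hk⟩ := hPmod _ h4
      exact absurd (congrArg Prod.snd (hub.1 hk)) (by simp)
    · have h3 : P (u (i, true)) := ⟨i, hu1 i⟩
      refine iff_of_false (fun h4 => ?_) fun h4 => h4 h3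
      obtain ⟨k, hk⟩ := hPmod _ h4
      have h5 : c • u (i, true) = u (i, false) := by rw [hu1, hu2]
      rw [h5] at hk
      exact absurd (congrArg Prod.snd (hub.1 hk)) (by simp)
  have hPτ : ∀ y, P (τ • y) ↔ P y := by
    intro y
    constructor
    · rintro ⟨i, hi⟩
      rcases Nat.eq_zero_or_pos i with rfl | hi0
      · refine ⟨ℓ - 1, ?_⟩
        apply smul_left_cancel τ
        rw [hi, pow_zero, one_smul, ← mul_smul, ← pow_succ', Nat.sub_add_cancel hℓ.one_lt.le, hτg]
      · refine ⟨i - 1, ?_⟩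
        apply smul_left_cancel τ
        rw [hi, ← mul_smul, ← pow_succ', Nat.sub_add_cancel hi0]
    · rintro ⟨i, rfl⟩
      exact ⟨i + 1, by rw [pow_succ', mul_smul]⟩
  let a : X → ℤ := fun y => if P y then 1 else -1
  have hac : ∀ y, a (c • y) = -a y := by
    intro y
    change (if P (c • y) then (1 : ℤ) else -1) = -if P y then 1 else -1
    by_cases hy : P y
    · rw [if_pos hy, if_neg fun h => (hPc y).1 h hy]
    · rw [if_neg hy, if_pos ((hPc y).2 hy)]
      norm_num
  have haτ : ∀ y, a (τ • y) = a y := by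
    intro y
    change (if P (τ • y) then (1 : ℤ) else -1) = if P y then 1 else -1
    simp only [hPτ]
  have hPφ : P φ := ⟨0, by rw [pow_zero, one_smul]⟩
  have haφ : a φ = 1 := if_pos hPφ
  let r : ℤ := ∑ y, if P y then f φ y else 0
  have hsf : ∑ y, a y * f φ y = 2 * r := by
    have h3 : ∑ y, (if P y then 0 else f φ y) = -r := by
      change _ = -∑ y, if P y then f φ y else 0
      rw [← Finset.sum_neg_distrib]
      refine Fintype.sum_equiv (MulAction.toPerm c) _ _ fun y => ?_
      change (if P y then 0 else f φ y) = -if P (c • y) then f φ (c • y) else 0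
      rw [hfr]
      by_cases hy : P y
      · rw [if_pos hy, if_neg fun h => (hPc y).1 h hy, neg_zero]
      · rw [if_neg hy, if_pos ((hPc y).2 hy), neg_neg]
    have h4 : ∑ y, a y * f φ y = r - ∑ y, (if P y then 0 else f φ y) := by
      change _ = (∑ y, if P y then f φ y else 0) - _
      rw [← Finset.sum_sub_distrib]
      refine Finset.sum_congr rfl fun y _ => ?_
      change (if P y then (1 : ℤ) else -1) * f φ y = _
      split_ifs <;> ring
    rw [h4, h3]
    ring
  have hsd : ∑ y, a y * d φ y = 2 := by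
    have h3 : ∀ y, a y * d φ y = (if φ = y then a y else 0) - if c • φ = y then a y else 0 := by
      intro y
      change a y * ((if φ = y then (1 : ℤ) else 0) - if φ = c • y then 1 else 0) = _
      simp only [hcsw φ y]
      split_ifs <;> ring
    rw [Finset.sum_congr rfl fun y _ => h3 y, Finset.sum_sub_distrib,
      Finset.sum_ite_eq Finset.univ φ, Finset.sum_ite_eq Finset.univ (c • φ),
      if_pos (Finset.mem_univ _), if_pos (Finset.mem_univ _), hac, haφ]
    norm_num
  let F : X → X → ℤ := fun x y => f x y - r * d x y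
  have hFinv : ∀ (σ : G) x y, F (σ • x) (σ • y) = F x y := fun σ x y => by
    change f (σ • x) (σ • y) - r * d (σ • x) (σ • y) = f x y - r * d x y
    rw [hfinv, hdinv]
  have hFr : ∀ x y, F x (c • y) = -F x y := fun x y => by
    change f x (c • y) - r * d x (c • y) = -(f x y - r * d x y)
    rw [hfr, hdr]
    ring
  have hFl : ∀ x y, F (c • x) y = -F x y := fun x y => by
    change f (c • x) y - r * d (c • x) y = -(f x y - r * d x y)
    rw [hfl, hdl]
    ring
  have hS0 : ∑ y, a y * F φ y = 0 := by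
    have h3 : ∀ y, a y * F φ y = a y * f φ y - r * (a y * d φ y) := fun y => by
      change a y * (f φ y - r * d φ y) = _
      ring
    rw [Finset.sum_congr rfl fun y _ => h3 y, Finset.sum_sub_distrib, ← Finset.mul_sum, hsf, hsd]
    ring
  have hSτ : ∀ x, ∑ y, a y * F (τ • x) y = ∑ y, a y * F x y := by
    intro x
    refine Fintype.sum_equiv (MulAction.toPerm τ⁻¹) _ _ fun y => ?_
    change a y * F (τ • x) y = a (τ⁻¹ • y) * F x (τ⁻¹ • y)
    have h3 := haτ (τ⁻¹ • y)
    have h4 := hFinv τ x (τ⁻¹ • y)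
    rw [smul_inv_smul] at h3 h4
    rw [h3, h4]
  have hSpow : ∀ i : ℕ, ∑ y, a y * F (τ ^ i • φ) y = 0 := by
    intro i
    induction i with
    | zero => rw [pow_zero, one_smul, hS0]
    | succ i ih => rw [pow_succ', mul_smul, hSτ, ih]
  have hS : ∀ x, ∑ y, a y * F x y = 0 := by
    intro x
    obtain ⟨⟨i, b⟩, rfl⟩ := hub.2 x
    cases b
    · rw [hu2]
      simp only [hFl, mul_neg, Finset.sum_neg_distrib, hSpow, neg_zero]
    · rw [hu1, hSpow]
  -- the functions on the group
  let T : X → G → ℤ := fun x h => F φ (h • x)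
  have hT : ∀ σ x h, T (σ • x) h = T x (h * σ) := fun σ x h => by
    change F φ (h • σ • x) = F φ ((h * σ) • x)
    rw [mul_smul]
  have hTo : ∀ x h, T (c • x) h = -T x h := fun x h => by
    change F φ (h • c • x) = -F φ (h • x)
    rw [← hcn, hFr]
  have hsum : ∀ h, ∑ x, a x * T x h = 0 := by
    intro h
    rw [← hS (h⁻¹ • φ)]
    refine Finset.sum_congr rfl fun y _ => ?_
    change a y * F φ (h • y) = a y * F (h⁻¹ • φ) y
    have h3 := hFinv h (h⁻¹ • φ) y
    rw [smul_inv_smul] at h3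
    rw [h3]
  rcases prime_cases hset hℓ hℓ2 hcard T hT hTo with hinj | ⟨t, ε, hε, ht⟩
  · obtain ⟨x0, ε, hε⟩ := prime_orbit hset hℓ hℓ2 hcard T hT hTo hinj
    exact ⟨a, φ, by rw [haφ]; norm_num, hac, fun σ =>
      semi_of_orbit hset hT hε hac hsum (v0 := φ) (by rw [haφ]; norm_num) σ⟩
  · by_cases ht0 : ∀ h, t h = 0
    · exfalso
      have h3 : ∀ y, f φ y = r * d φ y := by
        intro y
        have h4 : T y 1 = 0 := by rw [ht, ht0, mul_zero]
        have h5 : F φ ((1 : G) • y) = 0 := h4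
        rw [one_smul] at h5
        have h6 : f φ y - r * d φ y = 0 := h5
        linarith
      have h4 := h3 φ
      have h5 : d φ φ = 1 := by
        change (if φ = φ then (1 : ℤ) else 0) - (if φ = c • φ then 1 else 0) = 1
        rw [if_pos rfl, if_neg (hset.ne φ).symm, sub_zero]
      rw [hdiag, h5, mul_one] at h4
      have h6 := h3 ψ
      rw [← h4, zero_mul] at h6
      omega
    · push Not at ht0
      obtain ⟨h0, ht0⟩ := ht0
      refine ⟨ε, φ, ?_, fun x => ?_, semi_of_line hT hε ht ht0⟩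
      · rcases hε φ with h3 | h3 <;> rw [h3] <;> norm_num
      · have h3 := hTo x h0
        rw [ht, ht] at h3
        have h4 : (ε (c • x) + ε x) * t h0 = 0 := by linarith
        rcases mul_eq_zero.1 h4 with h5 | h5
        · linarith
        · exact absurd h5 ht0

end

end Pool.Agent.T9h37.BI
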