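import Pool.Agent.T9h37.BI.Full

/-!
# Relations on factors with the same general CM field
-/

set_option autoImplicit false
set_option linter.unusedSectionVars false
set_option linter.unusedVariables false

namespace Pool.Agent.T9h37.BI

open NumberField Pool.Agent.H204R3.CM Pool.Agent.W547.KB Pool.Agent.W547.LD Pool.Agent.W547.HR
  Pool.Agent.W495.TA Module Pool.Agent.TH117.PO Pool.Agent.W976.TA Pool.Agent.W417.TA
  Pool.Agent.TH117.BL Pool.Agent.W495.TC Pool.Agent.W495.TB Pool.Agent.TH117.F5 Pool.Agent.N202.QR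
open scoped TensorProduct

noncomputable section

variable {p : ℕ} [Fact p.Prime] {ν : PadicAlgCl p ≃+* ℂ}
  {L : Type} [Field L] [NumberField L] [IsCMField L] [IsGalois ℚ L] {j : L →+* ℂ}
  {Z : RedAV p ν}

/-- General CM fields. -/
theorem general_gal (A : CMPair) (hA : BigA A j) (hG : IsGeneral A.E) (φ ψ : A.E →+* L)
    (h1 : ψ ≠ φ) (h2 : ψ ≠ cc L • φ) : ∃ g : L ≃ₐ[ℚ] L, g • φ = φ ∧ g • ψ = cc L • ψ := by
  rcases hG with hF | ⟨ℓ, hℓ, hℓ2, hdeg, hQ⟩
  · obtain ⟨τ, hτ⟩ := hF (j.comp φ) (j.comp ψ) (fun h => h1 (comp_inj h)) (fun h => h2 (comp_inj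
      (h.trans (comp_smul_cc j A φ).symm)))
    obtain ⟨g, hg⟩ := exists_restrict j τ
    refine ⟨g, ?_, ?_⟩
    · ext x
      apply j.injective
      change j (g (φ x)) = j (φ x)
      rw [hg]
      exact hτ.1 x
    · ext x
      apply j.injective
      rw [comp_smul_star]
      change j (g (ψ x)) = star (j (ψ x))
      rw [hg]
      exact hτ.2 x
  · have hfin' := finite_emb j A
    let _ : Fintype (A.E →+* L) := Fintype.ofFinite _
    have hcard : Fintype.card (A.E →+* L) = 2 * ℓ := (card_emb hA).trans hdeg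
    rcases full_or_semi (setting j A (L := L)) hℓ hℓ2 hcard φ ψ h1 h2 with h | ⟨a, x1, h3, h4, h5⟩
    · exact h
    · exfalso
      obtain ⟨F, _, _, _, h6, ⟨f⟩⟩ := Pool.Agent.T9h37.CT.exists_quad j a x1 h3 h4 h5
      exact (hQ F h6).false f

/-- **Relations on factors with the same general CM field and linearly independent slopes.** -/
theorem iso_on (hZ : Big Z.X j) (i : Z.X.I) (S : Set Z.X.I) (hI : IsIsotypic Z i S)
    (e : Emb Z → ℕ) (he : IsRel Z e) (hs : ∀ w, e w ≠ 0 → w.1 ∈ S) :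
    (fun w => (e w : ℤ)) ∈ Elem Z := by
  classical
  obtain ⟨hG, x, hx, hind⟩ := hI
  choose θ' hθ' using hx
  let θ : ∀ k : S, (Z.X.factor k).E ≃+* (Z.X.factor i).E := fun k => θ' k.1 k.2
  have hθ : ∀ k : S, θ k (Z.π k) = x k := fun k => hθ' k.1 k.2
  let A := Z.X.factor i
  let X := A.E →+* L
  have hfin' := finite_emb j A
  let _ : Fintype (A.E →+* L) := Fintype.ofFinite _
  have hfin := Pool.Agent.W495.TB.finite_wt j hZ
  let _ : Fintype (Wt Z.X L) := Fintype.ofFinite _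
  have hset := setting j A (L := L)
  let wt : S × X → Wt Z.X L := fun q => ⟨q.1, q.2.comp (θ q.1 : (Z.X.factor q.1).E →+* A.E)⟩
  have hwtinj : Function.Injective wt := by
    rintro ⟨⟨k, hk⟩, φ⟩ ⟨⟨k', hk'⟩, φ'⟩ h
    obtain ⟨h1, h2⟩ := Sigma.mk.inj_iff.1 h
    obtain rfl : k = k' := h1
    have h3 := eq_of_heq h2
    have h4 : φ = φ' := by
      ext x
      have h5 := RingHom.congr_fun h3 ((θ ⟨k, hk⟩).symm x)
      have h6 : φ (θ ⟨k, hk⟩ ((θ ⟨k, hk⟩).symm x)) = φ' (θ ⟨k, hk⟩ ((θ ⟨k, hk⟩).symm x)) := h5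
      rwa [RingEquiv.apply_symm_apply] at h6
    rw [h4]
  have hwtrange : ∀ w : Wt Z.X L, w.1 ∈ S → ∃ q, wt q = w := by
    rintro ⟨k, φ⟩ hk
    refine ⟨(⟨k, hk⟩, φ.comp ((θ ⟨k, hk⟩).symm : A.E →+* (Z.X.factor k).E)), ?_⟩
    refine Sigma.ext rfl (heq_of_eq ?_)
    ext x
    change φ ((θ ⟨k, hk⟩).symm (θ ⟨k, hk⟩ x)) = φ x
    rw [RingEquiv.symm_apply_apply]
  let E : S × X → Emb Z := fun q => toEmb j Z (wt q)
  have hE : ∀ w : Emb Z, w.1 ∈ S → ∃ q, E q = w := by
    intro w hw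
    obtain ⟨v, rfl⟩ := (toEmb_bijective (j := j) hZ).2 w
    obtain ⟨q, rfl⟩ := hwtrange v hw
    exact ⟨q, rfl⟩
  have hEc : ∀ k φ, conjE (E (k, φ)) = E (k, cc L • φ) := fun k φ =>
    (toEmb_cw (j := j) (wt (k, φ))).symm
  let U : S → X → ℤ := fun k φ => tw p ν j Z.X (wt (k, φ)) 1
  have hU : ∀ k φ σ, tw p ν j Z.X (wt (k, φ)) σ = U k (σ • φ) := by
    intro k φ σ
    have h1 := tw_sw (p := p) (ν := ν) (j := j) σ (wt (k, φ)) 1
    rw [one_mul] at h1
    exact h1.symm
  have hUc : ∀ k φ, U k (cc L • φ) = -U k φ := by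
    intro k φ
    have h1 := congrFun (tw_cw (p := p) (ν := ν) (j := j) (wt (k, φ))) 1
    exact h1
  have hrel : ∀ σ : L ≃ₐ[ℚ] L, ∑ q : S × X, (e (E q) : ℤ) * U q.1 (σ • q.2) = 0 := by
    intro σ
    have h1 := (isRel_iff hZ e).1 he σ
    rw [← h1]
    refine Fintype.sum_of_injective wt hwtinj _ _ (fun w hw => ?_) fun q => ?_
    · have h2 : e (toEmb j Z w) = 0 := by
        by_contra h3
        obtain ⟨q, hq⟩ := hwtrange w (hs _ h3)
        exact hw ⟨q, hq⟩
      rw [h2]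
      simp
    · rw [← hU]
  -- the coefficients at one embedding
  have key : ∀ φ0 : X, ∀ k : S, oddE e (E (k, φ0)) = 0 := by
    intro φ0
    let o : S → ℤ := fun k => oddE e (E (k, φ0))
    let w : X → ℤ := fun φ => ∑ k, o k * U k φ
    let C : S → X → ℤ := fun k φ => ∑ σ : L ≃ₐ[ℚ] L, w (σ • φ0) * U k (σ • φ)
    have hC0 : ∀ k φ, φ ≠ φ0 → φ ≠ cc L • φ0 → C k φ = 0 := by
      intro k φ h1 h2
      obtain ⟨g, hg1, hg2⟩ := general_gal A (hZ i) hG φ0 φ h1 h2
      have h3 : C k φ = -C k φ := by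
        change _ = -∑ σ : L ≃ₐ[ℚ] L, w (σ • φ0) * U k (σ • φ)
        rw [← Finset.sum_neg_distrib]
        refine Fintype.sum_equiv (Equiv.mulRight g⁻¹) _ _ fun σ => ?_
        change w (σ • φ0) * U k (σ • φ) = -(w ((σ * g⁻¹) • φ0) * U k ((σ * g⁻¹) • φ))
        have e1 : g⁻¹ • φ0 = φ0 := by rw [inv_smul_eq_iff, hg1]
        have e2 : g⁻¹ • φ = cc L • φ := by
          rw [inv_smul_eq_iff, ← mul_smul, ← hset.comm, mul_smul, hg2, ← mul_smul, hset.sq,
            one_smul]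
        rw [mul_smul, mul_smul, e1, e2]
        have e3 : σ • cc L • φ = cc L • σ • φ := by rw [← mul_smul, ← hset.comm, mul_smul]
        rw [e3, hUc]
        ring
      omega
    have hCc : ∀ k, C k (cc L • φ0) = -C k φ0 := by
      intro k
      change _ = -∑ σ : L ≃ₐ[ℚ] L, w (σ • φ0) * U k (σ • φ0)
      rw [← Finset.sum_neg_distrib]
      refine Finset.sum_congr rfl fun σ _ => ?_
      have e3 : σ • cc L • φ0 = cc L • σ • φ0 := by rw [← mul_smul, ← hset.comm, mul_smul]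
      rw [e3, hUc]
      ring
    have h1 : ∑ q : S × X, (e (E q) : ℤ) * C q.1 q.2 = 0 := by
      have h2 : ∀ q : S × X, (e (E q) : ℤ) * C q.1 q.2 =
          ∑ σ : L ≃ₐ[ℚ] L, w (σ • φ0) * ((e (E q) : ℤ) * U q.1 (σ • q.2)) := by
        intro q
        change (e (E q) : ℤ) * ∑ σ : L ≃ₐ[ℚ] L, w (σ • φ0) * U q.1 (σ • q.2) = _
        rw [Finset.mul_sum]
        exact Finset.sum_congr rfl fun σ _ => by ring
      rw [Finset.sum_congr rfl fun q _ => h2 q, Finset.sum_comm]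
      refine Finset.sum_eq_zero fun σ _ => ?_
      rw [← Finset.mul_sum, hrel, mul_zero]
    have h2 : ∑ k : S, o k * C k φ0 = 0 := by
      rw [Fintype.sum_prod_type] at h1
      rw [← h1]
      refine Finset.sum_congr rfl fun k _ => ?_
      have h3 : ∑ φ : X, (e (E (k, φ)) : ℤ) * C k φ =
          ∑ φ ∈ {φ0, cc L • φ0}, (e (E (k, φ)) : ℤ) * C k φ := by
        symm
        refine Finset.sum_subset (Finset.subset_univ _) fun φ _ hφ => ?_
        rw [Finset.mem_insert, Finset.mem_singleton, not_or] at hφ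
        rw [hC0 k φ hφ.1 hφ.2, mul_zero]
      change _ = ∑ φ : X, (e (E (k, φ)) : ℤ) * C k φ
      rw [h3, Finset.sum_pair (hset.ne φ0).symm, hCc]
      change oddE e (E (k, φ0)) * _ = _
      unfold oddE
      rw [hEc]
      ring
    have h3 : ∑ σ : L ≃ₐ[ℚ] L, w (σ • φ0) * w (σ • φ0) = 0 := by
      rw [← h2]
      have h4 : ∀ k, o k * C k φ0 = ∑ σ : L ≃ₐ[ℚ] L, w (σ • φ0) * (o k * U k (σ • φ0)) := by
        intro k
        change o k * ∑ σ : L ≃ₐ[ℚ] L, w (σ • φ0) * U k (σ • φ0) = _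
        rw [Finset.mul_sum]
        exact Finset.sum_congr rfl fun σ _ => by ring
      rw [Finset.sum_congr rfl fun k _ => h4 k, Finset.sum_comm]
      refine Finset.sum_congr rfl fun σ _ => ?_
      rw [← Finset.mul_sum]
    have hw0 : ∀ φ : X, w φ = 0 := by
      intro φ
      obtain ⟨σ, rfl⟩ := hset.trans φ0 φ
      have h4 := (Finset.sum_eq_zero_iff_of_nonneg fun σ _ => mul_self_nonneg _).1 h3 σ
        (Finset.mem_univ σ)
      exact mul_self_eq_zero.1 h4
    -- linear independence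
    let o' : Z.X.I → ℤ := fun k => if h : k ∈ S then o ⟨k, h⟩ else 0
    have ho'1 : ∀ k : S, o' k = o k := fun k => dif_pos k.2
    have ho'2 : ∀ k, k ∉ S → o' k = 0 := fun k hk => dif_neg hk
    have ho : o' = 0 := by
      refine hind o' ho'2 fun φ => ?_
      obtain ⟨φ', rfl⟩ := hZ i φ
      have hred1 : ∏ k, ‖ν.symm ((j.comp φ') (x k))‖ ^ (2 * o' k) =
          ∏ k : S, ‖ν.symm ((j.comp φ') (θ k (Z.π k)))‖ ^ (2 * o k) := by
        symm
        refine Fintype.prod_of_injective (fun k : S => (k : Z.X.I)) Subtype.val_injective _ _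
          (fun k hk => ?_) fun k => ?_
        · have h1 : k ∉ S := fun h => hk ⟨⟨k, h⟩, rfl⟩
          rw [ho'2 k h1, mul_zero, zpow_zero]
        · rw [hθ, ho'1]
      have hred2 : ∑ k, o' k = ∑ k : S, o k := by
        symm
        refine Fintype.sum_of_injective (fun k : S => (k : Z.X.I)) Subtype.val_injective _ _
          (fun k hk => ?_) fun k => ?_
        · have h1 : k ∉ S := fun h => hk ⟨⟨k, h⟩, rfl⟩
          exact ho'2 k h1
        · exact (ho'1 k).symm
      rw [hred1, hred2]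
      have hD : (0 : ℕ) < Nat.card (Dec p ν j) := Nat.card_pos
      have h5 : ∀ k : S, ‖ν.symm ((j.comp φ') (θ k (Z.π k)))‖ ^
          (2 * (Nat.card (Dec p ν j) : ℤ)) =
          ‖(p : PadicAlgCl p)‖ ^ ((Z.a : ℤ) * ((Nat.card (Dec p ν j) : ℤ) + U k φ')) := fun k =>
        norm_pow_two_card hZ (wt (k, φ')) 1
      have h6 : (∏ k : S, ‖ν.symm ((j.comp φ') (θ k (Z.π k)))‖ ^ (2 * o k)) ^
          Nat.card (Dec p ν j) = (‖(p : PadicAlgCl p)‖ ^ (Z.a * ∑ k, o k)) ^
            Nat.card (Dec p ν j) := by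
        rw [← Finset.prod_pow]
        have h7 : ∀ k : S, (‖ν.symm ((j.comp φ') (θ k (Z.π k)))‖ ^ (2 * o k)) ^
            Nat.card (Dec p ν j) = ‖(p : PadicAlgCl p)‖ ^
              ((Z.a : ℤ) * ((Nat.card (Dec p ν j) : ℤ) + U k φ') * o k) := by
          intro k
          have e1 : (‖ν.symm ((j.comp φ') (θ k (Z.π k)))‖ ^ (2 * o k)) ^ Nat.card (Dec p ν j) =
              (‖ν.symm ((j.comp φ') (θ k (Z.π k)))‖ ^ (2 * (Nat.card (Dec p ν j) : ℤ))) ^ o k := by
            rw [← zpow_natCast, ← zpow_mul, ← zpow_mul]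
            congr 1
            ring
          rw [e1, h5 k, ← zpow_mul]
        rw [Finset.prod_congr rfl fun k _ => h7 k, ← zpow_sum' norm_p_pos.ne', ← zpow_natCast,
          ← zpow_mul]
        congr 1
        have h8 : ∑ k : S, (Z.a : ℤ) * ((Nat.card (Dec p ν j) : ℤ) + U k φ') * o k =
            (Z.a : ℤ) * (∑ k, o k) * (Nat.card (Dec p ν j) : ℤ) + (Z.a : ℤ) * w φ' := by
          change _ = _ + (Z.a : ℤ) * ∑ k, o k * U k φ'
          rw [Finset.mul_sum, Finset.mul_sum, Finset.sum_mul, ← Finset.sum_add_distrib]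
          refine Finset.sum_congr rfl fun k _ => ?_
          ring
        rw [h8, hw0, mul_zero, add_zero]
      refine (pow_left_inj₀ ?_ ?_ hD.ne').1 h6
      · exact Finset.prod_nonneg fun k _ => zpow_nonneg (norm_nonneg _) _
      · exact zpow_nonneg (norm_nonneg _) _
    intro k
    have h9 := congrFun ho k
    rw [ho'1] at h9
    exact h9
  refine sym_elem e fun w => ?_
  by_cases hw : w.1 ∈ S
  · obtain ⟨⟨k, φ⟩, rfl⟩ := hE w hw
    exact key φ k
  · have h1 : e w = 0 := by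
      by_contra h
      exact hw (hs w h)
    have h2 : e (conjE w) = 0 := by
      by_contra h
      exact hw (hs (conjE w) h)
    unfold oddE
    rw [h1, h2]
    rfl

end

end Pool.Agent.T9h37.BI
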