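import Pool.Agent.T9h37.BI.Prime
import Pool.Agent.T9h37.BI.Iso
import Pool.Agent.TH117.GN.Main
import Pool.Agent.X303.RegDefs

/-!
# Abelian varieties whose factors split in independent blocks
-/

set_option autoImplicit false
set_option linter.unusedSectionVars false
set_option linter.unusedVariables false

namespace Pool.Agent.T9h37.BI

open NumberField Pool.Agent.H204R3.CM Pool.Agent.W547.KB Pool.Agent.W547.LD Pool.Agent.W547.HR
  Pool.Agent.W495.TA Module Pool.Agent.TH117.PO Pool.Agent.W976.TA Pool.Agent.W417.TA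
  Pool.Agent.TH117.BL Pool.Agent.W495.TC Pool.Agent.W495.TB Pool.Agent.TH117.F5 Pool.Agent.N202.QR
  Pool.Agent.W495.FM Pool.Agent.TH117.GN
open scoped TensorProduct

noncomputable section

variable {p : ℕ} [Fact p.Prime] {ν : PadicAlgCl p ≃+* ℂ}

section

variable {L : Type} [Field L] [NumberField L] [IsCMField L] [IsGalois ℚ L] {j : L →+* ℂ}
  {Z : RedAV p ν}

/-- The restriction of a relation to a block is a relation. -/
theorem block_rel (hZ : Big Z.X j) (b : Z.X.I → ℕ)
    (hb : ∀ i k, b i ≠ b k → Apart (Z.X.factor i).E (Z.X.factor k).E) {e : Emb Z → ℕ}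
    (he : IsRel Z e) (m : ℕ) : IsRel Z fun w => if b w.1 = m then e w else 0 := by
  classical
  have hfin := Pool.Agent.W495.TB.finite_wt j hZ
  let _ : Fintype (Wt Z.X L) := Fintype.ofFinite _
  rw [isRel_iff hZ] at he ⊢
  let u : Wt Z.X L → ℤ := fun w => if b w.1 = m then (e (toEmb j Z w) : ℤ) else 0
  let v : Wt Z.X L → ℤ := fun w => if b w.1 = m then 0 else (e (toEmb j Z w) : ℤ)
  let F : (L ≃ₐ[ℚ] L) → ℤ := fun h => ∑ w : Wt Z.X L, u w * tw p ν j Z.X w h
  let G : (L ≃ₐ[ℚ] L) → ℤ := fun h => ∑ w : Wt Z.X L, v w * tw p ν j Z.X w h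
  have hFG : ∀ h, F h + G h = 0 := by
    intro h
    rw [← he h, ← Finset.sum_add_distrib]
    refine Finset.sum_congr rfl fun w _ => ?_
    change (if b w.1 = m then (e (toEmb j Z w) : ℤ) else 0) * _ +
      (if b w.1 = m then 0 else (e (toEmb j Z w) : ℤ)) * _ = _
    split_ifs <;> ring
  have horth : ∑ h, F h * G h = 0 := by
    have h1 : ∀ h, F h * G h = ∑ w : Wt Z.X L, ∑ w' : Wt Z.X L,
        u w * v w' * (tw p ν j Z.X w h * tw p ν j Z.X w' h) := by
      intro h
      change (∑ w : Wt Z.X L, u w * tw p ν j Z.X w h) *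
        (∑ w : Wt Z.X L, v w * tw p ν j Z.X w h) = _
      rw [Finset.sum_mul_sum]
      refine Finset.sum_congr rfl fun w _ => Finset.sum_congr rfl fun w' _ => ?_
      ring
    rw [Finset.sum_congr rfl fun h _ => h1 h, Finset.sum_comm]
    refine Finset.sum_eq_zero fun w _ => ?_
    rw [Finset.sum_comm]
    refine Finset.sum_eq_zero fun w' _ => ?_
    rw [← Finset.mul_sum]
    by_cases hw : b w.1 = m
    · by_cases hw' : b w'.1 = m
      · have h2 : v w' = 0 := if_pos hw'
        rw [h2, mul_zero, zero_mul]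
      · have h2 : ∑ h, tw p ν j Z.X w h * tw p ν j Z.X w' h = 0 :=
          bil_apart (p := p) (ν := ν) (j := j) (hb w.1 w'.1 fun h => hw' (h.symm.trans hw)) (hZ w.1)
            (hZ w'.1) w.2 w'.2
        rw [h2, mul_zero]
    · have h2 : u w = 0 := if_neg hw
      rw [h2, zero_mul, zero_mul]
  have hF : ∑ h, F h * F h = 0 := by
    have h1 : ∀ h, F h * F h = -(F h * G h) := by
      intro h
      have h2 := hFG h
      have h3 : G h = -F h := by linarith
      rw [h3]
      ring
    rw [Finset.sum_congr rfl fun h _ => h1 h, Finset.sum_neg_distrib, horth, neg_zero]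
  have hF0 : ∀ h, F h = 0 := by
    intro h
    have h1 := (Finset.sum_eq_zero_iff_of_nonneg fun σ _ => mul_self_nonneg _).1 hF h
      (Finset.mem_univ h)
    exact mul_self_eq_zero.1 h1
  intro h
  rw [← hF0 h]
  refine Finset.sum_congr rfl fun w _ => ?_
  change (((if b w.1 = m then e (toEmb j Z w) else 0 : ℕ)) : ℤ) * _ =
    (if b w.1 = m then (e (toEmb j Z w) : ℤ) else 0) * _
  split_ifs <;> rfl

end

/-- **Abelian varieties whose factors split in independent blocks have elementary relations.** -/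
theorem elementary_of_blocks {Z : RedAV p ν} (hB : HasBlocks Z) : HasElementaryRelations Z := by
  classical
  obtain ⟨b, hb, hblock⟩ := hB
  intro e he
  have hne : Nonempty (Z.X.prod (single (kp p))).I := ⟨Sum.inr ()⟩
  obtain ⟨L, _, _, _, _, j, hj⟩ := exists_cm (Z.X.prod (single (kp p)))
  have hZ : Big Z.X j := fun i ψ => hj (Sum.inl i) ψ
  have h1 : (fun w => (e w : ℤ)) = ∑ m ∈ Finset.univ.image b,
      fun w : Emb Z => ((if b w.1 = m then e w else 0 : ℕ) : ℤ) := by
    funext w
    rw [Finset.sum_apply, Finset.sum_eq_single (b w.1)]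
    · rw [if_pos rfl]
    · intro m _ hm
      rw [if_neg fun h => hm h.symm]
      rfl
    · intro h
      exact absurd (Finset.mem_image_of_mem b (Finset.mem_univ w.1)) h
  rw [h1]
  refine AddSubgroup.sum_mem _ fun m hm => ?_
  obtain ⟨i, -, rfl⟩ := Finset.mem_image.1 hm
  have hrel := block_rel hZ b hb he (b i)
  have hsupp : ∀ w : Emb Z, (if b w.1 = b i then e w else 0) ≠ 0 → b w.1 = b i := by
    intro w hw
    by_contra h
    exact hw (if_neg h)
  rcases hblock i with ⟨hi, h⟩ | h | h
  · have hs : ∀ w : Emb Z, (if b w.1 = b i then e w else 0) ≠ 0 → w.1 = i := fun w hw =>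
      hi w.1 (hsupp w hw)
    rcases h with h | h
    · have hgood : IsGoodSet Z {i} := by
        refine Or.inl ⟨?_, fun k hk l hl hkl => absurd (hk.trans hl.symm) hkl⟩
        refine le_trans (le_of_eq (Finset.sum_eq_single i ?_ ?_)) ?_
        · intro k _ hk
          exact if_neg hk
        · intro h'
          exact absurd (Finset.mem_univ _) h'
        · split_ifs
          · exact h
          · norm_num
      exact AddSubgroup.subset_closure ⟨_, hrel, Or.inr (Or.inl ⟨_, hgood, fun w hw => hs w hw⟩),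
        fun w => rfl⟩
    · obtain ⟨ℓ, hℓ, hℓ2, hdeg, hN⟩ := h
      exact prime_on hZ i hℓ hℓ2 hdeg hN _ hrel hs
  · exact iso_on hZ i _ h _ hrel fun w hw => hsupp w hw
  · have hgood : IsGoodSet Z {k | b k = b i} := by
      refine Or.inr ⟨fun k hk => (h k hk).1, fun k hk l hl hcl => ?_⟩
      by_cases hkl : l = k
      · subst hkl
        exact Or.inr (Or.inr (Or.inr ⟨RingEquiv.refl _, 1, one_pos, rfl⟩))
      · rcases (h k hk).2 l hl hkl with h2 | h2
        · exact Or.inl h2
        · exact absurd hcl h2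
    exact AddSubgroup.subset_closure ⟨_, hrel, Or.inr (Or.inl ⟨_, hgood, fun w hw => hsupp w hw⟩),
      fun w => rfl⟩

variable {Ω V : Type} [Field Ω] [IsAlgClosed Ω] [CharZero Ω] {T : Homology Ω V}

theorem tb_blocks (hT : IsHomology T) {X : V} (hX : Generated T (IsBlockAbelian p ν T) X) :
    TB T X := by
  refine tb_generated hT (fun X hX => ?_) hX
  obtain ⟨Y, C, M, g, ⟨Z, h1, h2⟩, hC, hM, hX⟩ := hX
  have h3 : IsPowersTimesSupersingular Z Y := by
    intro i
    rcases h2 i with h | ⟨k, ι, s, t, hs, ht, hst, h⟩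
    · exact Or.inl h
    · exact Or.inr ⟨k, ι, s, t, hs, ht, hst, h⟩
  exact tb_abelian hT hC (tateHolds_elem (elementary_of_blocks h1) h3 hC) hM hX

end

end Pool.Agent.T9h37.BI
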