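import Pool.Agent.T9h37.BI.Block

/-!
# Relations on a factor of odd prime dimension
-/

set_option autoImplicit false
set_option linter.unusedSectionVars false
set_option linter.unusedVariables false

namespace Pool.Agent.T9h37.BI

open NumberField Pool.Agent.H204R3.CM Pool.Agent.W547.KB Pool.Agent.W547.LD Pool.Agent.W547.HR
  Pool.Agent.W495.TA Module Pool.Agent.TH117.PO Pool.Agent.W976.TA Pool.Agent.W417.TA
  Pool.Agent.TH117.BL Pool.Agent.W495.TC Pool.Agent.W495.TB Pool.Agent.TH117.F5 Pool.Agent.N202.QR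
open scoped TensorProduct

noncomputable section

variable {p : ℕ} [Fact p.Prime] {ν : PadicAlgCl p ≃+* ℂ}
  {L : Type} [Field L] [NumberField L] [IsCMField L] [IsGalois ℚ L] {j : L →+* ℂ}
  {Z : RedAV p ν}

/-- The functions which belong to the embeddings are not different from each other. -/
theorem line_on (hZ : Big Z.X j) (i : Z.X.I) [Fintype ((Z.X.factor i).E →+* L)]
    (t : (L ≃ₐ[ℚ] L) → ℤ) (ε : ((Z.X.factor i).E →+* L) → ℤ) (hε : ∀ x, ε x = 1 ∨ ε x = -1)
    (ht : ∀ x h, nn p ν j (Z.X.factor i) x h = ε x * t h) (e : Emb Z → ℕ)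
    (he : IsRel Z e) (hs : ∀ w, e w ≠ 0 → w.1 = i) : (fun w => (e w : ℤ)) ∈ Elem Z := by
  classical
  let A := Z.X.factor i
  let X := A.E →+* L
  have hset := setting j A (L := L)
  let E : X → Emb Z := fun φ => toEmb j Z ⟨i, φ⟩
  have hEinj : Function.Injective E := by
    intro φ φ' h
    have h1 := (toEmb_bijective (j := j) hZ).1 h
    exact eq_of_heq (Sigma.mk.inj_iff.1 h1).2
  have hE1 : ∀ φ, (E φ).1 = i := fun φ => rfl
  have hE : ∀ w : Emb Z, w.1 = i → ∃ φ, E φ = w := by
    rintro ⟨k, ψ⟩ h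
    obtain rfl : k = i := h
    obtain ⟨φ, rfl⟩ := hZ k ψ
    exact ⟨φ, rfl⟩
  have hTo : ∀ (φ : X) h, nn p ν j A (cc L • φ) h = -nn p ν j A φ h := fun φ h =>
    congrFun (nn_cc A φ) h
  have hrel := (isRel_on hZ i e hs).1 he
  by_cases ht0 : ∀ h, t h = 0
  · -- supersingular
    let n : Emb Z → Emb Z → ℕ := fun u w => if w = u then 1 else 0
    have h1 : (fun w => (e w : ℤ)) = ∑ u : Emb Z, e u • fun w => ((n u w : ℕ) : ℤ) := by
      funext w
      rw [Finset.sum_apply, Finset.sum_eq_single w]
      · simp [n]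
      · intro u _ hne
        have h2 : w ≠ u := fun h => hne h.symm
        simp [n, h2]
      · intro h
        exact absurd (Finset.mem_univ _) h
    rw [h1]
    refine AddSubgroup.sum_mem _ fun u _ => ?_
    by_cases hu : e u = 0
    · rw [hu, zero_smul]
      exact AddSubgroup.zero_mem _
    · refine AddSubgroup.nsmul_mem _ (pair_mem (n u) ?_ ?_) _
      · rw [isRel_on hZ i (n u) (fun w hw => by
          by_cases h : w = u
          · rw [h]
            exact hs u hu
          · exact absurd (if_neg h) hw)]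
        intro σ
        refine Finset.sum_eq_zero fun φ _ => ?_
        rw [ht, ht0, mul_zero, mul_zero]
      · change ∑ w, (if w = u then 1 else 0) ≤ 2
        rw [Finset.sum_ite_eq' Finset.univ u fun _ => 1, if_pos (Finset.mem_univ _)]
        norm_num
  · push Not at ht0
    obtain ⟨h0, ht0⟩ := ht0
    have hεc : ∀ φ : X, ε (cc L • φ) = -ε φ := by
      intro φ
      have h1 := hTo φ h0
      rw [ht, ht] at h1
      have h2 : (ε (cc L • φ) + ε φ) * t h0 = 0 := by linarith
      rcases mul_eq_zero.1 h2 with h3 | h3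
      · omega
      · exact absurd h3 ht0
    by_cases hX : Nonempty X
    swap
    · have h1 : (fun w => (e w : ℤ)) = 0 := by
        funext w
        by_contra h
        have h2 : e w ≠ 0 := fun h3 => h (by simp [h3])
        obtain ⟨φ, -⟩ := hE w (hs w h2)
        exact hX ⟨φ⟩
      rw [h1]
      exact AddSubgroup.zero_mem _
    obtain ⟨x1, hx1⟩ : ∃ x : X, ε x = 1 := by
      obtain ⟨x⟩ := hX
      rcases hε x with h | h
      · exact ⟨x, h⟩
      · exact ⟨cc L • x, by rw [hεc, h]; norm_num⟩
    obtain ⟨x2, hx2⟩ : ∃ x : X, ε x = -1 := ⟨cc L • x1, by rw [hεc, hx1]⟩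
    let n : X → X → Emb Z → ℕ := fun φ φ' w =>
      (if w = E φ then 1 else 0) + if w = E φ' then 1 else 0
    have hn : ∀ φ φ', ε φ + ε φ' = 0 → (fun w => ((n φ φ' w : ℕ) : ℤ)) ∈ Elem Z := by
      intro φ φ' hφ
      refine pair_mem (n φ φ') ?_ ?_
      · rw [isRel_on hZ i (n φ φ') (fun w hw => by
          by_cases h : w = E φ
          · rw [h]
            exact hE1 φ
          · by_cases h' : w = E φ'
            · rw [h']
              exact hE1 φ'
            · exact absurd (by
                change (if w = E φ then 1 else 0) + (if w = E φ' then 1 else 0) = 0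
                rw [if_neg h, if_neg h']) hw)]
        intro σ
        have e1 : ∀ ψ : X, ((n φ φ' (E ψ) : ℕ) : ℤ) * nn p ν j A ψ σ =
            (if ψ = φ then nn p ν j A ψ σ else 0) + if ψ = φ' then nn p ν j A ψ σ else 0 := by
          intro ψ
          change (((if E ψ = E φ then 1 else 0) + (if E ψ = E φ' then 1 else 0) : ℕ) : ℤ) * _ = _
          simp only [hEinj.eq_iff]
          split_ifs <;> push_cast <;> ring
        rw [Finset.sum_congr rfl fun ψ _ => e1 ψ, Finset.sum_add_distrib,
          Finset.sum_ite_eq' Finset.univ φ fun ψ => nn p ν j A ψ σ,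
          Finset.sum_ite_eq' Finset.univ φ' fun ψ => nn p ν j A ψ σ,
          if_pos (Finset.mem_univ _), if_pos (Finset.mem_univ _), ht, ht, ← add_mul, hφ,
          zero_mul]
      · change ∑ w, ((if w = E φ then 1 else 0) + if w = E φ' then 1 else 0) ≤ 2
        rw [Finset.sum_add_distrib, Finset.sum_ite_eq' Finset.univ (E φ) fun _ => 1,
          Finset.sum_ite_eq' Finset.univ (E φ') fun _ => 1, if_pos (Finset.mem_univ _),
          if_pos (Finset.mem_univ _)]
    -- the sums over the two halves agree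
    have hsum : ∑ φ : X, (if ε φ = 1 then (e (E φ) : ℤ) else 0) =
        ∑ φ : X, if ε φ = -1 then (e (E φ) : ℤ) else 0 := by
      have h1 := hrel h0
      have h2 : (∑ φ : X, (if ε φ = 1 then (e (E φ) : ℤ) else 0) -
          ∑ φ : X, if ε φ = -1 then (e (E φ) : ℤ) else 0) * t h0 = 0 := by
        refine Eq.trans ?_ h1
        rw [← Finset.sum_sub_distrib, Finset.sum_mul]
        refine Finset.sum_congr rfl fun φ _ => ?_
        rw [ht]
        rcases hε φ with h | h
        · rw [if_pos h, if_neg (by rw [h]; norm_num), h]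
          ring
        · rw [if_neg (by rw [h]; norm_num), if_pos h, h]
          ring
      rcases mul_eq_zero.1 h2 with h3 | h3
      · omega
      · exact absurd h3 ht0
    have h1 : (fun w => (e w : ℤ)) =
        (∑ φ : X, if ε φ = 1 then (e (E φ) : ℤ) • (fun w => ((n φ x2 w : ℕ) : ℤ))
          else (e (E φ) : ℤ) • fun w => ((n x1 φ w : ℕ) : ℤ)) -
        (∑ φ : X, (if ε φ = 1 then (e (E φ) : ℤ) else 0)) • fun w => ((n x1 x2 w : ℕ) : ℤ) := by
      funext w
      by_cases hw : w.1 = i
      · obtain ⟨ψ, rfl⟩ := hE w hw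
        rw [Pi.sub_apply, Finset.sum_apply, Pi.smul_apply, smul_eq_mul]
        have e1 : ∀ φ : X, (if ε φ = 1 then (e (E φ) : ℤ) • (fun w => ((n φ x2 w : ℕ) : ℤ))
            else (e (E φ) : ℤ) • fun w => ((n x1 φ w : ℕ) : ℤ)) (E ψ) =
            (if ψ = φ then (e (E φ) : ℤ) else 0) +
            (if ε φ = 1 then (e (E φ) : ℤ) else 0) * (if ψ = x2 then 1 else 0) +
            (if ε φ = -1 then (e (E φ) : ℤ) else 0) * (if ψ = x1 then 1 else 0) := by
          intro φ
          have e2 : ∀ φ' φ'' : X, ((n φ' φ'' (E ψ) : ℕ) : ℤ) =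
              (if ψ = φ' then 1 else 0) + if ψ = φ'' then 1 else 0 := by
            intro φ' φ''
            change (((if E ψ = E φ' then 1 else 0) + (if E ψ = E φ'' then 1 else 0) : ℕ) : ℤ) = _
            simp only [hEinj.eq_iff]
            push_cast
            rfl
          rcases hε φ with h | h
          · have h' : ¬ ε φ = -1 := by rw [h]; norm_num
            simp only [if_pos h, if_neg h']
            rw [Pi.smul_apply, smul_eq_mul, e2]
            split_ifs <;> ring
          · have h' : ¬ ε φ = 1 := by rw [h]; norm_num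
            simp only [if_pos h, if_neg h']
            rw [Pi.smul_apply, smul_eq_mul, e2]
            split_ifs <;> ring
        have e3 : ((n x1 x2 (E ψ) : ℕ) : ℤ) =
              (if ψ = x1 then 1 else 0) + if ψ = x2 then 1 else 0 := by
          change (((if E ψ = E x1 then 1 else 0) + (if E ψ = E x2 then 1 else 0) : ℕ) : ℤ) = _
          simp only [hEinj.eq_iff]
          push_cast
          rfl
        rw [Finset.sum_congr rfl fun φ _ => e1 φ, Finset.sum_add_distrib, Finset.sum_add_distrib,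
          ← Finset.sum_mul, ← Finset.sum_mul, ← hsum, e3,
          Finset.sum_ite_eq Finset.univ ψ fun φ => (e (E φ) : ℤ), if_pos (Finset.mem_univ _)]
        ring
      · have h2 : e w = 0 := by
          by_contra h
          exact hw (hs w h)
        have h3 : ∀ φ φ' : X, n φ φ' w = 0 := by
          intro φ φ'
          have h4 : ∀ ψ : X, w ≠ E ψ := by
            rintro ψ rfl
            exact hw rfl
          change (if w = E φ then 1 else 0) + (if w = E φ' then 1 else 0) = 0
          rw [if_neg (h4 φ), if_neg (h4 φ')]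
        rw [Pi.sub_apply, Finset.sum_apply, Pi.smul_apply, smul_eq_mul, h2]
        have e1 : ∀ φ : X, (if ε φ = 1 then (e (E φ) : ℤ) • (fun w => ((n φ x2 w : ℕ) : ℤ))
            else (e (E φ) : ℤ) • fun w => ((n x1 φ w : ℕ) : ℤ)) w = 0 := by
          intro φ
          split_ifs
          · rw [Pi.smul_apply, smul_eq_mul, h3]
            simp
          · rw [Pi.smul_apply, smul_eq_mul, h3]
            simp
        rw [Finset.sum_congr rfl fun φ _ => e1 φ, h3]
        simp
    rw [h1]
    refine AddSubgroup.sub_mem _ (AddSubgroup.sum_mem _ fun φ _ => ?_)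
      (AddSubgroup.zsmul_mem _ (hn x1 x2 (by rw [hx1, hx2]; norm_num)) _)
    split_ifs with h
    · exact AddSubgroup.zsmul_mem _ (hn φ x2 (by rw [h, hx2]; norm_num)) _
    · exact AddSubgroup.zsmul_mem _ (hn x1 φ (by
        rw [(hε φ).resolve_left h, hx1]; norm_num)) _

/-- **Relations on a factor of odd prime dimension.** -/
theorem prime_on (hZ : Big Z.X j) (i : Z.X.I) {ℓ : ℕ} (hℓ : ℓ.Prime) (hℓ2 : ℓ ≠ 2)
    (hdeg : finrank ℚ (Z.X.factor i).E = 2 * ℓ) (hN : NormFree (p ^ Z.a) ℓ (Z.π i))
    (e : Emb Z → ℕ) (he : IsRel Z e) (hs : ∀ w, e w ≠ 0 → w.1 = i) :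
    (fun w => (e w : ℤ)) ∈ Elem Z := by
  classical
  let A := Z.X.factor i
  let X := A.E →+* L
  have hfin' := finite_emb j A
  let _ : Fintype (A.E →+* L) := Fintype.ofFinite _
  have hset := setting j A (L := L)
  have hcard : Fintype.card X = 2 * ℓ := (card_emb (hZ i)).trans hdeg
  have hTs : ∀ (σ : L ≃ₐ[ℚ] L) (φ : X) h, nn p ν j A (σ • φ) h = nn p ν j A φ (h * σ) :=
    fun σ φ h => congrFun (nn_smul j A φ σ) h
  have hTo : ∀ (φ : X) h, nn p ν j A (cc L • φ) h = -nn p ν j A φ h := fun φ h =>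
    congrFun (nn_cc A φ) h
  have hrel := (isRel_on hZ i e hs).1 he
  let E : X → Emb Z := fun φ => toEmb j Z ⟨i, φ⟩
  have hEinj : Function.Injective E := by
    intro φ φ' h
    have h1 := (toEmb_bijective (j := j) hZ).1 h
    exact eq_of_heq (Sigma.mk.inj_iff.1 h1).2
  have hEc : ∀ φ, conjE (E φ) = E (cc L • φ) := fun φ =>
    (toEmb_cw (j := j) (⟨i, φ⟩ : Wt Z.X L)).symm
  have hE : ∀ w : Emb Z, w.1 = i → ∃ φ, E φ = w := by
    rintro ⟨k, ψ⟩ h
    obtain rfl : k = i := h
    obtain ⟨φ, rfl⟩ := hZ k ψ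
    exact ⟨φ, rfl⟩
  rcases prime_cases hset hℓ hℓ2 hcard (nn p ν j A) hTs hTo with hinj | ⟨t, ε, hε, ht⟩
  swap
  · exact line_on hZ i t ε hε ht e he hs
  obtain ⟨x0, ε, hε⟩ := prime_orbit hset hℓ hℓ2 hcard (nn p ν j A) hTs hTo hinj
  -- the odd part
  let a : X → ℤ := fun φ => oddE e (E φ)
  have hac : ∀ φ, a (cc L • φ) = -a φ := by
    intro φ
    change oddE e (E (cc L • φ)) = -oddE e (E φ)
    rw [← hEc, oddE_conj]
  have hsum : ∀ h, ∑ φ : X, a φ * nn p ν j A φ h = 0 := by
    intro h
    have h1 := hrel h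
    have h2 : ∑ φ : X, (e (conjE (E φ)) : ℤ) * nn p ν j A φ h = 0 := by
      rw [← neg_eq_zero, ← Finset.sum_neg_distrib, ← h1]
      refine Fintype.sum_equiv (MulAction.toPerm (cc L)) _ _ fun φ => ?_
      change -((e (conjE (E φ)) : ℤ) * nn p ν j A φ h) =
        (e (E (cc L • φ)) : ℤ) * nn p ν j A (cc L • φ) h
      rw [hEc, hTo]
      ring
    have h3 : ∑ φ : X, a φ * nn p ν j A φ h =
        ∑ φ : X, (e (E φ) : ℤ) * nn p ν j A φ h -
          ∑ φ : X, (e (conjE (E φ)) : ℤ) * nn p ν j A φ h := by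
      rw [← Finset.sum_sub_distrib]
      refine Finset.sum_congr rfl fun φ _ => ?_
      change oddE e (E φ) * _ = _
      unfold oddE
      ring
    rw [h3, h1, h2, sub_zero]
  by_cases ha0 : ∀ φ, a φ = 0
  · refine sym_elem e fun w => ?_
    by_cases hw : w.1 = i
    · obtain ⟨φ, rfl⟩ := hE w hw
      exact ha0 φ
    · have h1 : e w = 0 := by
        by_contra h
        exact hw (hs w h)
      have h2 : e (conjE w) = 0 := by
        by_contra h
        exact hw (hs (conjE w) h)
      unfold oddE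
      rw [h1, h2]
      rfl
  exfalso
  push Not at ha0
  obtain ⟨v0, hv0⟩ := ha0
  have hεa : ∀ (σ : L ≃ₐ[ℚ] L) x, a (σ • x) = ε x * a (σ • x0) := by
    intro σ x
    refine hε (fun x => a (σ • x)) (fun x => ?_) (fun h => ?_) x
    · rw [← mul_smul, ← hset.comm, mul_smul, hac]
    · have h1 := hsum (h * σ⁻¹)
      rw [← h1]
      refine Fintype.sum_equiv (MulAction.toPerm σ) _ _ fun φ => ?_
      change a (σ • φ) * nn p ν j A φ h = a (σ • φ) * nn p ν j A (σ • φ) (h * σ⁻¹)
      rw [hTs, inv_mul_cancel_right]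
  have ha : ∀ (σ : L ≃ₐ[ℚ] L) (w w' : X), a (σ • w) * a w' = a (σ • w') * a w := by
    intro σ w w'
    have h1 := hεa 1
    simp only [one_smul] at h1
    rw [hεa σ w, hεa σ w', h1 w, h1 w']
    ring
  have : Nonempty X := ⟨v0⟩
  obtain ⟨w1, hw1⟩ := Finite.exists_max fun w => |a w|
  have hw1' : a w1 ≠ 0 := by
    intro h
    have h1 := hw1 v0
    rw [h, abs_zero] at h1
    exact hv0 (abs_nonpos_iff.1 h1)
  have hpm : ∀ σ : L ≃ₐ[ℚ] L, (∀ w, a (σ • w) = a w) ∨ ∀ w, a (σ • w) = -a w := by
    intro σ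
    have h1 := ha σ w1 (σ⁻¹ • w1)
    have h2 : σ • σ⁻¹ • w1 = w1 := smul_inv_smul σ w1
    rw [h2] at h1
    have h3 : |a (σ • w1)| * |a (σ⁻¹ • w1)| = |a w1| * |a w1| := by
      rw [← abs_mul, ← abs_mul, h1]
    have h4 := hw1 (σ • w1)
    have h5 := hw1 (σ⁻¹ • w1)
    have h6 : 0 < |a w1| := abs_pos.2 hw1'
    have h7 : |a (σ • w1)| = |a w1| := by
      by_contra hne
      have h8 : |a (σ • w1)| < |a w1| := lt_of_le_of_ne h4 hne
      have h9 : 0 ≤ |a (σ • w1)| := abs_nonneg _
      nlinarith
    rcases abs_eq_abs.1 h7 with h8 | h8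
    · refine Or.inl fun w => ?_
      have h9 := ha σ w1 w
      rw [h8] at h9
      exact (mul_left_cancel₀ hw1' (by linarith)).symm
    · refine Or.inr fun w => ?_
      have h9 := ha σ w1 w
      rw [h8] at h9
      have h10 : a w1 * a (σ • w) = a w1 * -a w := by linarith
      exact mul_left_cancel₀ hw1' h10
  -- the imaginary quadratic field
  let N : Subgroup (L ≃ₐ[ℚ] L) :=
    { carrier := {σ | ∀ w, a (σ • w) = a w}
      one_mem' := fun w => by rw [one_smul]
      mul_mem' := by
        intro σ τ h1 h2 w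
        have h1' : ∀ w, a (σ • w) = a w := h1
        have h2' : ∀ w, a (τ • w) = a w := h2
        rw [mul_smul, h1', h2']
      inv_mem' := by
        intro σ h1 w
        have h1' : ∀ w, a (σ • w) = a w := h1
        rw [← h1' (σ⁻¹ • w), ← mul_smul, mul_inv_cancel, one_smul] }
  have hNI : IsImag N := by
    constructor
    · intro h
      have h1 : a (cc L • w1) = a w1 := h w1
      rw [hac] at h1
      omega
    · intro τ hτ w
      have h1 : ∀ w, a (τ • w) = -a w := (hpm τ).resolve_left hτ
      rw [mul_smul, hac, h1, neg_neg]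
  obtain ⟨⟨hCM, htwo⟩, hmem⟩ := quad_fld j hNI
  obtain ⟨ι, hι⟩ := fld_emb j hNI w1 (fun τ hτ => by
    rcases hpm τ with h | h
    · exact h
    · exfalso
      have h4 := h w1
      rw [hτ] at h4
      omega)
  let F := fld (N : Set (L ≃ₐ[ℚ] L))
  let κ : F →+* ℂ := (j.comp w1).comp ι
  have hκ : ∀ y : F, κ y = j y := fun y => congrArg j (hι y)
  -- the embeddings with the restriction `κ`
  have hiff : ∀ φ : X, (j.comp φ).comp ι = κ ↔ a φ = a w1 := by
    intro φ
    obtain ⟨σ, rfl⟩ := hset.trans w1 φ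
    have h1 : (j.comp (σ • w1)).comp ι = κ ↔ ∀ y : F, σ (y : L) = y := by
      constructor
      · intro h y
        have h2 := RingHom.congr_fun h y
        rw [hκ] at h2
        have h3 : j (σ (w1 (ι y))) = j y := h2
        rw [hι] at h3
        exact j.injective h3
      · intro h
        ext y
        rw [hκ]
        change j (σ (w1 (ι y))) = j y
        rw [hι, h]
    rw [h1]
    constructor
    · intro h
      rcases hpm σ with h2 | h2
      · exact h2 w1
      · exfalso
        -- the complex conjugation fixes `F`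
        have h3 : cc L * σ ∈ N := hNI.2 σ fun h4 => by
          have h5 := h4 w1
          rw [h2] at h5
          omega
        have h6 : ∀ y : F, cc L (y : L) = y := by
          intro y
          have h7 := (hmem y).1 y.2 _ h3
          have h8 : cc L (σ (y : L)) = y := h7
          rwa [h] at h8
        apply Pool.Agent.TH117.BL.conj_ne κ
        ext y
        change star (κ y) = κ y
        have h9 := comp_smul_star (A := A) (j := j) w1 (ι y)
        have h10 : (cc L • w1) (ι y) = cc L (w1 (ι y)) := rfl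
        rw [h10, hι, h6] at h9
        rw [hκ, ← h9]
    · intro h y
      have h2 : σ ∈ N := by
        rcases hpm σ with h3 | h3
        · exact h3
        · exfalso
          have h4 := h3 w1
          rw [h] at h4
          omega
      exact (hmem y).1 y.2 σ h2
  have hval : ∀ φ, a φ = a w1 ∨ a φ = -a w1 := by
    intro φ
    obtain ⟨σ, rfl⟩ := hset.trans w1 φ
    exact (hpm σ).imp (fun h => h w1) fun h => h w1
  have h2w : a w1 ≠ -a w1 := by omega
  -- the product of the eigenvalues
  let n : Emb Z → ℕ := fun w => if ∃ φ : X, E φ = w ∧ a φ = a w1 then 1 else 0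
  have hnE : ∀ φ, n (E φ) = if a φ = a w1 then 1 else 0 := by
    intro φ
    change (if ∃ φ' : X, E φ' = E φ ∧ a φ' = a w1 then 1 else 0) = _
    refine if_congr ?_ rfl rfl
    constructor
    · rintro ⟨φ', h1, h2⟩
      rw [← hEinj h1]
      exact h2
    · exact fun h => ⟨φ, rfl, h⟩
  have hns : ∀ w, n w ≠ 0 → w.1 = i := by
    intro w hw
    by_contra h
    apply hw
    change (if ∃ φ' : X, E φ' = w ∧ a φ' = a w1 then 1 else 0) = 0
    rw [if_neg]
    rintro ⟨φ, rfl, -⟩
    exact h rfl
  have hnrel : IsRel Z n := by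
    rw [isRel_on hZ i n hns]
    intro h
    have h1 := hsum h
    have h2 : ∑ φ : X, ((n (E φ) : ℕ) : ℤ) * nn p ν j A φ h = 
        -∑ φ : X, (if a φ = a w1 then 0 else 1) * nn p ν j A φ h := by
      rw [← Finset.sum_neg_distrib]
      refine Fintype.sum_equiv (MulAction.toPerm (cc L)) _ _ fun φ => ?_
      change ((n (E φ) : ℕ) : ℤ) * nn p ν j A φ h =
        -((if a (cc L • φ) = a w1 then 0 else 1) * nn p ν j A (cc L • φ) h)
      rw [hnE, hTo, hac]
      rcases hval φ with h3 | h3
      · rw [if_pos h3, if_neg (by rw [h3]; exact h2w.symm)]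
        push_cast
        ring
      · rw [if_neg (by rw [h3]; exact h2w.symm), if_pos (by rw [h3, neg_neg])]
        push_cast
        ring
    have h3 : ∑ φ : X, a φ * nn p ν j A φ h =
        a w1 * (∑ φ : X, ((n (E φ) : ℕ) : ℤ) * nn p ν j A φ h -
          ∑ φ : X, (if a φ = a w1 then 0 else 1) * nn p ν j A φ h) := by
      rw [← Finset.sum_sub_distrib, Finset.mul_sum]
      refine Finset.sum_congr rfl fun φ _ => ?_
      rw [hnE]
      rcases hval φ with h3 | h3
      · rw [if_pos h3, if_pos h3, h3]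
        push_cast
        ring
      · rw [if_neg (by rw [h3]; exact h2w.symm), if_neg (by rw [h3]; exact h2w.symm), h3]
        push_cast
        ring
    rw [h3] at h1
    have h4 := (mul_eq_zero.1 h1).resolve_left hw1'
    change ∑ φ : X, ((n (E φ) : ℕ) : ℤ) * nn p ν j A φ h = 0
    linarith
  obtain ⟨s, hs0, hprod⟩ := hnrel
  have hnsum : ∑ w, n w = ℓ := by
    have h1 : ∑ φ : X, n (E φ) = ∑ w, n w := by
      refine Fintype.sum_of_injective E hEinj _ _ (fun w hw => ?_) fun φ => rfl
      by_contra h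
      apply hw
      obtain ⟨φ, hφ⟩ := hE w (hns w h)
      exact ⟨φ, hφ⟩
    rw [← h1]
    have h2 : ∑ φ : X, n (E φ) = ∑ φ : X, (if a φ = a w1 then 0 else 1) := by
      refine Fintype.sum_equiv (MulAction.toPerm (cc L)) _ _ fun φ => ?_
      change n (E φ) = if a (cc L • φ) = a w1 then 0 else 1
      rw [hnE, hac]
      rcases hval φ with h3 | h3
      · rw [if_pos h3, if_neg (by rw [h3]; exact h2w.symm)]
      · rw [if_neg (by rw [h3]; exact h2w.symm), if_pos (by rw [h3, neg_neg])]
    have h3 : ∑ φ : X, n (E φ) + ∑ φ : X, (if a φ = a w1 then 0 else 1) = 2 * ℓ := by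
      rw [← Finset.sum_add_distrib, ← hcard, ← Finset.card_univ, Finset.card_eq_sum_ones]
      refine Finset.sum_congr rfl fun φ _ => ?_
      rw [hnE]
      split_ifs <;> rfl
    omega
  have hpr : ∏ w, eig Z w ^ n w =
      ∏ φ : A.E →+* ℂ, if φ.comp ι = κ then φ (Z.π i) else 1 := by
    symm
    refine Fintype.prod_of_injective (fun φ : A.E →+* ℂ => (⟨i, φ⟩ : Emb Z))
      (fun φ φ' h => eq_of_heq (Sigma.mk.inj_iff.1 h).2) _ _ (fun w hw => ?_) fun φ => ?_
    · have h1 : n w = 0 := by
        by_contra h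
        apply hw
        have h4 := hns w h
        obtain ⟨k, ψ⟩ := w
        obtain rfl : k = i := h4
        exact ⟨ψ, rfl⟩
      rw [h1, pow_zero]
    · obtain ⟨φ', rfl⟩ := hZ i φ
      change (if (j.comp φ').comp ι = κ then j (φ' (Z.π i)) else 1) =
        (j (φ' (Z.π i))) ^ n (E φ')
      rw [hnE]
      by_cases h : a φ' = a w1
      · rw [if_pos h, if_pos ((hiff φ').2 h), pow_one]
      · rw [if_neg h, if_neg fun h' => h ((hiff φ').1 h'), pow_zero]
  rw [hpr, hnsum] at hprod
  refine hN F ι κ s htwo hs0 ?_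
  rw [hprod]
  push_cast
  rfl

end

end Pool.Agent.T9h37.BI
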